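import Pool.Agent.Helper66.SG.Defs
import Pool.Agent.Helper66.SEC.Sym

/-!
# M6: random greedy colouring
-/

set_option autoImplicit false

namespace Pool.Agent.SG

open Finset Pool.Agent.SEC
open scoped Classical

namespace Greedy

variable {Y : Type} {P : ℕ}

theorem pick_some {π : Equiv.Perm (Fin P)} {B : Finset (Fin P)} {c : Fin P}
    (h : pick π B = some c) : c ∉ B := by
  have := List.find?_some h
  simpa using this

theorem pick_isSome (π : Equiv.Perm (Fin P)) (B : Finset (Fin P)) (h : B.card < P) :
    ∃ c, pick π B = some c := by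
  obtain ⟨c, hc⟩ : ∃ c, c ∉ B := by
    by_contra hcon
    push Not at hcon
    have : B = univ := eq_univ_iff_forall.2 hcon
    rw [this, card_univ, Fintype.card_fin] at h
    omega
  unfold pick
  rw [← Option.isSome_iff_exists, List.find?_isSome]
  exact ⟨c, by rw [List.mem_map]; exact ⟨π.symm c, List.mem_finRange _, by simp⟩, by simpa using hc⟩

theorem pick_mul (τ π : Equiv.Perm (Fin P)) (B B' : Finset (Fin P))
    (hB : ∀ c, τ c ∈ B' ↔ c ∈ B) : pick (τ * π) B' = (pick π B).map τ := by
  unfold pick
  have h1 : (List.finRange P).map (τ * π : Equiv.Perm (Fin P)) =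
      ((List.finRange P).map π).map τ := by
    rw [List.map_map]
    rfl
  rw [h1, List.find?_map]
  congr 2
  funext c
  simp only [Function.comp_apply, decide_eq_decide]
  rw [hB c]

theorem grd_succ (od : Y → ℕ) (bk : Y → Finset Y) (π : Y → Equiv.Perm (Fin P)) (n : ℕ) (y : Y) :
    grd od bk π (n + 1) y = if od y = n then
        pick (π y) (univ.filter (fun c => ∃ y' ∈ bk y, grd od bk π n y' = some c))
      else grd od bk π n y := rfl

theorem grd_stable (od : Y → ℕ) (bk : Y → Finset Y) (π : Y → Equiv.Perm (Fin P)) (y : Y) {n : ℕ}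
    (h : od y + 1 ≤ n) : grd od bk π n y = gcol od bk π y := by
  unfold gcol
  induction n, h using Nat.le_induction with
  | base => rfl
  | succ n hn ih =>
    rw [grd_succ, if_neg (by omega), ih]

theorem sum_update {A : Type} [Fintype Y] [Fintype A] (y' : Y) (f : (Y → A) → ℝ) :
    ∑ π : Y → A, ∑ σ : A, f (Function.update π y' σ) = Fintype.card A * ∑ π, f π := by
  have inv : Function.Involutive
      (fun z : (Y → A) × A => (Function.update z.1 y' z.2, z.1 y')) := by
    rintro ⟨π, σ⟩
    simp
  calc ∑ π : Y → A, ∑ σ : A, f (Function.update π y' σ)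
      = ∑ z : (Y → A) × A, f (Function.update z.1 y' z.2) := by
        rw [Fintype.sum_prod_type]
    _ = ∑ z : (Y → A) × A, f ((inv.toPerm _) z).1 := rfl
    _ = ∑ z : (Y → A) × A, f z.1 := Equiv.sum_comp (inv.toPerm _) (fun z => f z.1)
    _ = Fintype.card A * ∑ π, f π := by
        rw [Fintype.sum_prod_type, mul_sum]
        refine sum_congr rfl fun π _ => ?_
        simp

theorem pick_count (B : Finset (Fin P)) (g : ℕ) (hB : B.card + g ≤ P) (c₀ : Fin P) :
    g * (univ.filter (fun σ : Equiv.Perm (Fin P) => pick σ B = some c₀)).card ≤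
      Fintype.card (Equiv.Perm (Fin P)) := by
  by_cases h0 : c₀ ∈ B
  · rw [filter_false_of_mem]
    · simp
    · intro σ _ h
      exact pick_some h h0
  have hc : ∀ c ∈ Bᶜ, (univ.filter (fun σ : Equiv.Perm (Fin P) => pick σ B = some c₀)).card =
      (univ.filter (fun σ : Equiv.Perm (Fin P) => pick σ B = some c)).card := by
    intro c hc
    rw [mem_compl] at hc
    have hsw : ∀ d, Equiv.swap c c₀ d ∈ B ↔ d ∈ B := by
      intro d
      by_cases h1 : d = c
      · subst h1
        simp [h0, hc]
      · by_cases h2 : d = c₀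
        · subst h2
          simp [h0, hc]
        · rw [Equiv.swap_apply_of_ne_of_ne h1 h2]
    refine Finset.card_bij' (fun σ _ => Equiv.swap c c₀ * σ) (fun σ _ => Equiv.swap c c₀ * σ)
      ?_ ?_ ?_ ?_
    · intro σ hσ
      rw [mem_filter] at hσ ⊢
      refine ⟨mem_univ _, ?_⟩
      rw [pick_mul _ _ B B hsw, hσ.2]
      simp
    · intro σ hσ
      rw [mem_filter] at hσ ⊢
      refine ⟨mem_univ _, ?_⟩
      rw [pick_mul _ _ B B hsw, hσ.2]
      simp
    · intro σ _
      rw [← mul_assoc, Equiv.swap_mul_self, one_mul]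
    · intro σ _
      rw [← mul_assoc, Equiv.swap_mul_self, one_mul]
  have h1 : g ≤ Bᶜ.card := by
    rw [card_compl, Fintype.card_fin]
    omega
  calc g * (univ.filter (fun σ : Equiv.Perm (Fin P) => pick σ B = some c₀)).card
      ≤ Bᶜ.card * (univ.filter (fun σ : Equiv.Perm (Fin P) => pick σ B = some c₀)).card :=
        Nat.mul_le_mul_right _ h1
    _ = ∑ c ∈ Bᶜ, (univ.filter (fun σ : Equiv.Perm (Fin P) => pick σ B = some c)).card := by
        rw [← smul_eq_mul, ← sum_const]
        exact sum_congr rfl hc
    _ = (Bᶜ.biUnion (fun c => univ.filter (fun σ : Equiv.Perm (Fin P) =>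
          pick σ B = some c))).card := by
        rw [card_biUnion]
        intro c _ c' _ hcc
        rw [Function.onFun, disjoint_left]
        intro σ h2 h3
        rw [mem_filter] at h2 h3
        exact hcc (Option.some.inj (h2.2.symm.trans h3.2))
    _ ≤ Fintype.card (Equiv.Perm (Fin P)) := card_le_univ _

end Greedy

open Greedy

section greedy
variable {Y : Type} {P : ℕ} (od : Y → ℕ) (bk : Y → Finset Y)
  (hbk : ∀ y, ∀ y' ∈ bk y, od y' < od y)
include hbk

theorem gcol_eq (π : Y → Equiv.Perm (Fin P)) (y : Y) :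
    gcol od bk π y =
      pick (π y) (univ.filter (fun c => ∃ y' ∈ bk y, gcol od bk π y' = some c)) := by
  have h1 : gcol od bk π y = grd od bk π (od y + 1) y := rfl
  rw [h1, grd_succ, if_pos rfl]
  congr 1
  apply filter_congr
  intro c _
  refine exists_congr fun y' => and_congr_right fun hy' => ?_
  rw [grd_stable od bk π y' (hbk y y' hy')]

theorem gcol_isSome (π : Y → Equiv.Perm (Fin P)) (y : Y) (hc : (bk y).card < P) :
    ∃ c, gcol od bk π y = some c := by
  rw [gcol_eq od bk hbk π y]
  apply pick_isSome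
  refine lt_of_le_of_lt ?_ hc
  have c₀ : Fin P := ⟨0, by omega⟩
  have : univ.filter (fun c => ∃ y' ∈ bk y, gcol od bk π y' = some c) ⊆
      (bk y).image (fun y' => (gcol od bk π y').getD c₀) := by
    intro c hc
    rw [mem_filter] at hc
    obtain ⟨_, y', hy', h⟩ := hc
    rw [mem_image]
    exact ⟨y', hy', by rw [h]; rfl⟩
  exact (card_le_card this).trans card_image_le

theorem gcol_ne (π : Y → Equiv.Perm (Fin P)) (y y' : Y) (h : y' ∈ bk y) (c : Fin P)
    (hy : gcol od bk π y = some c) : gcol od bk π y' ≠ some c := by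
  intro h'
  rw [gcol_eq od bk hbk π y] at hy
  exact pick_some hy (mem_filter.2 ⟨mem_univ _, y', h, h'⟩)

/-- the colour of `y` is determined by a closed set containing `y` -/
theorem gcol_congr {od' : Y → ℕ} {bk' : Y → Finset Y}
    (hbk' : ∀ y, ∀ y' ∈ bk' y, od' y' < od' y) (π π' : Y → Equiv.Perm (Fin P)) (C : Y → Prop)
    (hC : ∀ y, C y → bk y = bk' y ∧ π y = π' y ∧ ∀ y' ∈ bk y, C y') (y : Y) (hy : C y) :
    gcol od bk π y = gcol od' bk' π' y := by
  obtain ⟨n, hn⟩ : ∃ n, n = od y := ⟨_, rfl⟩
  induction n using Nat.strong_induction_on generalizing y with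
  | _ n ih =>
    obtain ⟨h1, h2, h3⟩ := hC y hy
    rw [gcol_eq od bk hbk π y, gcol_eq od' bk' hbk' π' y, ← h1, h2]
    congr 1
    apply filter_congr
    intro c _
    refine exists_congr fun y' => and_congr_right fun hy' => ?_
    rw [ih (od y') (by rw [hn]; exact hbk y y' hy') y' (h3 y' hy') rfl]

theorem pr_gcol [Fintype Y] (hc : ∀ y, (bk y).card < P) (y : Y) (c₀ : Fin P) :
    pr (fun π : Y → Equiv.Perm (Fin P) => gcol od bk π y = some c₀) = 1 / P := by
  have hP : 0 < P := lt_of_le_of_lt (Nat.zero_le _) c₀.2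
  have hequi : ∀ (τ : Equiv.Perm (Fin P)) (π : Y → Equiv.Perm (Fin P)) (n : ℕ) (y : Y),
      od y = n → gcol od bk (fun x => τ * π x) y = (gcol od bk π y).map τ := by
    intro τ π n
    induction n using Nat.strong_induction_on with
    | _ n ih =>
      intro y hn
      rw [gcol_eq od bk hbk (fun x => τ * π x) y, gcol_eq od bk hbk π y]
      apply pick_mul
      intro c
      simp only [mem_filter, mem_univ, true_and]
      refine exists_congr fun y' => and_congr_right fun hy' => ?_
      rw [ih (od y') (by rw [← hn]; exact hbk y y' hy') y' rfl, Option.map_eq_some_iff]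
      constructor
      · rintro ⟨a, h4, h5⟩
        rw [h4, τ.injective h5]
      · intro h
        exact ⟨c, h, rfl⟩
  have hcard : ∀ c : Fin P,
      (univ.filter (fun π : Y → Equiv.Perm (Fin P) => gcol od bk π y = some c)).card =
      (univ.filter (fun π : Y → Equiv.Perm (Fin P) => gcol od bk π y = some c₀)).card := by
    intro c
    refine Finset.card_bij' (fun π _ => fun x => Equiv.swap c c₀ * π x)
      (fun π _ => fun x => Equiv.swap c c₀ * π x) ?_ ?_ ?_ ?_
    · intro π hπ
      rw [Finset.mem_filter] at hπ ⊢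
      refine ⟨Finset.mem_univ _, ?_⟩
      rw [hequi _ _ _ _ rfl, hπ.2]
      simp
    · intro π hπ
      rw [Finset.mem_filter] at hπ ⊢
      refine ⟨Finset.mem_univ _, ?_⟩
      rw [hequi _ _ _ _ rfl, hπ.2]
      simp
    · intro π _
      funext x
      rw [← mul_assoc, Equiv.swap_mul_self, one_mul]
    · intro π _
      funext x
      rw [← mul_assoc, Equiv.swap_mul_self, one_mul]
  have hs : ∀ π : Y → Equiv.Perm (Fin P), ∃ c, gcol od bk π y = some c :=
    fun π => gcol_isSome od bk hbk π y (hc y)
  choose f hf using hs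
  have hfib : (univ : Finset (Y → Equiv.Perm (Fin P))).card =
      ∑ c : Fin P, (univ.filter (fun π : Y → Equiv.Perm (Fin P) => f π = c)).card :=
    Finset.card_eq_sum_card_fiberwise (fun _ _ => Finset.mem_coe.2 (Finset.mem_univ _))
  have hfe : ∀ c : Fin P, univ.filter (fun π : Y → Equiv.Perm (Fin P) => f π = c) =
      univ.filter (fun π : Y → Equiv.Perm (Fin P) => gcol od bk π y = some c) := by
    intro c
    ext π
    rw [Finset.mem_filter, Finset.mem_filter, hf π, Option.some.injEq]
  have htot : (Fintype.card (Y → Equiv.Perm (Fin P))) =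
      P * (univ.filter (fun π : Y → Equiv.Perm (Fin P) => gcol od bk π y = some c₀)).card := by
    rw [← Finset.card_univ, hfib, Finset.sum_congr rfl fun c _ => by rw [hfe c, hcard c],
      Finset.sum_const, Finset.card_univ, Fintype.card_fin, smul_eq_mul]
  have hpos : 0 < Fintype.card (Y → Equiv.Perm (Fin P)) := Fintype.card_pos
  have hA : (0 : ℝ) <
      ((univ.filter (fun π : Y → Equiv.Perm (Fin P) => gcol od bk π y = some c₀)).card : ℝ) := by
    rw [htot] at hpos
    exact_mod_cast Nat.pos_of_mul_pos_left hpos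
  rw [Symm.pr_eq, htot]
  push_cast
  have hP' : (0 : ℝ) < P := by exact_mod_cast hP
  field_simp

/-- `y'` is not an ancestor of `y`, expressed by a closed set `C` -/
theorem pr_gcol_pair [Fintype Y] (g : ℕ) (hg : 0 < g) (hc : ∀ y, (bk y).card + g ≤ P)
    (y y' : Y) (C : Y → Prop) (hC : ∀ w, C w → ∀ w' ∈ bk w, C w') (hy : C y) (hy' : ¬ C y')
    (c₀ : Fin P) :
    pr (fun π : Y → Equiv.Perm (Fin P) => gcol od bk π y = some c₀ ∧
      gcol od bk π y' = some c₀) ≤ 1 / P * (1 / g) := by
  have hc' : ∀ y, (bk y).card < P := fun y => by have := hc y; omega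
  have hg' : (0 : ℝ) < g := by exact_mod_cast hg
  -- indicator functions
  let f : (Y → Equiv.Perm (Fin P)) → ℝ := fun π => if gcol od bk π y = some c₀ then 1 else 0
  let h : (Y → Equiv.Perm (Fin P)) → ℝ := fun π => if gcol od bk π y' = some c₀ then 1 else 0
  let B : (Y → Equiv.Perm (Fin P)) → Finset (Fin P) := fun π =>
    univ.filter (fun c => ∃ w ∈ bk y', gcol od bk π w = some c)
  have hBc : ∀ π, (B π).card + g ≤ P := by
    intro π
    have c₁ : Fin P := c₀
    have : B π ⊆ (bk y').image (fun w => (gcol od bk π w).getD c₀) := by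
      intro c hc
      simp only [B, mem_filter, mem_univ, true_and] at hc
      obtain ⟨w, hw, h⟩ := hc
      rw [mem_image]
      exact ⟨w, hw, by rw [h]; rfl⟩
    have h2 := (card_le_card this).trans card_image_le
    have h3 := hc y'
    omega
  have hf : ∀ π σ, f (Function.update π y' σ) = f π := by
    intro π σ
    have : gcol od bk (Function.update π y' σ) y = gcol od bk π y := by
      refine gcol_congr od bk hbk hbk _ _ C ?_ y hy
      intro w hw
      refine ⟨rfl, ?_, hC w hw⟩
      rw [Function.update_of_ne]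
      rintro rfl
      exact hy' hw
    simp only [f, this]
  have hh : ∀ π σ, h (Function.update π y' σ) = if pick σ (B π) = some c₀ then 1 else 0 := by
    intro π σ
    have : gcol od bk (Function.update π y' σ) y' = pick σ (B π) := by
      rw [gcol_eq od bk hbk]
      congr 1
      · simp
      · simp only [B]
        apply filter_congr
        intro c _
        refine exists_congr fun w => and_congr_right fun hw => ?_
        have : gcol od bk (Function.update π y' σ) w = gcol od bk π w := by
          refine gcol_congr od bk hbk hbk _ _ (fun u => od u < od y') ?_ w (hbk y' w hw)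
          intro u hu
          refine ⟨rfl, ?_, fun u' hu' => (hbk u u' hu').trans hu⟩
          rw [Function.update_of_ne]
          rintro rfl
          exact lt_irrefl _ hu
        rw [this]
    simp only [h, this]
  have hcA : (0 : ℝ) < Fintype.card (Equiv.Perm (Fin P)) := by
    exact_mod_cast Fintype.card_pos
  have hcT : (0 : ℝ) < Fintype.card (Y → Equiv.Perm (Fin P)) := by
    exact_mod_cast Fintype.card_pos
  have h1 : Fintype.card (Equiv.Perm (Fin P)) * ∑ π, f π * h π ≤
      Fintype.card (Equiv.Perm (Fin P)) * (∑ π, f π) * (1 / g) := by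
    rw [← sum_update y' (fun π => f π * h π)]
    rw [mul_sum, sum_mul]
    refine sum_le_sum fun π _ => ?_
    have h2 : ∑ σ, f (Function.update π y' σ) * h (Function.update π y' σ) =
        f π * ((univ.filter (fun σ : Equiv.Perm (Fin P) => pick σ (B π) = some c₀)).card : ℝ) := by
      rw [card_filter, Nat.cast_sum, mul_sum]
      refine sum_congr rfl fun σ _ => ?_
      rw [hf, hh]
      split_ifs <;> simp
    rw [h2]
    have h3 : (g : ℝ) *
        ((univ.filter (fun σ : Equiv.Perm (Fin P) => pick σ (B π) = some c₀)).card : ℝ) ≤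
        Fintype.card (Equiv.Perm (Fin P)) := by
      exact_mod_cast pick_count (B π) g (hBc π) c₀
    have h4 : ((univ.filter (fun σ : Equiv.Perm (Fin P) => pick σ (B π) = some c₀)).card : ℝ) ≤
        Fintype.card (Equiv.Perm (Fin P)) * (1 / g) := by
      rw [mul_one_div, le_div_iff₀ hg']
      linarith
    have hf0 : 0 ≤ f π := by
      simp only [f]
      split_ifs <;> norm_num
    calc f π * ((univ.filter (fun σ : Equiv.Perm (Fin P) => pick σ (B π) = some c₀)).card : ℝ)
        ≤ f π * (Fintype.card (Equiv.Perm (Fin P)) * (1 / g)) := mul_le_mul_of_nonneg_left h4 hf0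
      _ = Fintype.card (Equiv.Perm (Fin P)) * f π * (1 / g) := by ring
  have h5 : ∑ π, f π * h π ≤ (∑ π, f π) * (1 / g) := by
    rw [mul_assoc] at h1
    exact le_of_mul_le_mul_left h1 hcA
  have h6 : pr (fun π : Y → Equiv.Perm (Fin P) => gcol od bk π y = some c₀ ∧
      gcol od bk π y' = some c₀) = (∑ π, f π * h π) / Fintype.card (Y → Equiv.Perm (Fin P)) := by
    rw [Symm.pr_eq, card_filter, Nat.cast_sum]
    congr 1
    refine sum_congr rfl fun π _ => ?_
    simp only [f, h]
    split_ifs with h7 h8 h9
    · simp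
    · exact absurd h7.2 h9
    · exact absurd h7.1 h8
    all_goals simp_all
  have h7 : pr (fun π : Y → Equiv.Perm (Fin P) => gcol od bk π y = some c₀) =
      (∑ π, f π) / Fintype.card (Y → Equiv.Perm (Fin P)) := by
    rw [Symm.pr_eq, card_filter, Nat.cast_sum]
    congr 1
    refine sum_congr rfl fun π _ => ?_
    simp only [f]
    split_ifs <;> simp
  rw [h6, ← pr_gcol od bk hbk hc' y c₀, h7, div_mul_eq_mul_div]
  exact div_le_div_of_nonneg_right h5 hcT.le

end greedy

end Pool.Agent.SG
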