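import Pool.Agent.Helper66.SG.Process

set_option autoImplicit false

namespace Pool.Agent.SG

open Finset Pool.Agent.SEC
open scoped Classical

/-! ### M11: balls and tests -/

namespace Balls

variable {V : Type} [Fintype V] (adj : V → V → Prop)

theorem mem_zero (x z : V) : z ∈ ball adj 0 x ↔ z = x := by
  simp [ball]

theorem mem_succ (n : ℕ) (x z : V) :
    z ∈ ball adj (n + 1) x ↔ z ∈ ball adj n x ∨ ∃ z' ∈ ball adj n x, adj z' z := by
  simp [ball]

theorem self_mem (n : ℕ) (x : V) : x ∈ ball adj n x := by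
  induction n with
  | zero => simp [mem_zero]
  | succ n ih => rw [mem_succ]; exact Or.inl ih

theorem mono_one (n : ℕ) (x : V) : ball adj n x ⊆ ball adj (n + 1) x := by
  intro z hz
  rw [mem_succ]
  exact Or.inl hz

theorem mono {n m : ℕ} (h : n ≤ m) (x : V) : ball adj n x ⊆ ball adj m x := by
  induction h with
  | refl => exact Subset.refl _
  | step _ ih => exact ih.trans (mono_one adj _ x)

/-- composition of balls -/
theorem comp (n m : ℕ) (x y z : V) (hy : y ∈ ball adj n x) (hz : z ∈ ball adj m y) :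
    z ∈ ball adj (n + m) x := by
  induction m generalizing z with
  | zero =>
    rw [mem_zero] at hz
    rw [hz]
    exact hy
  | succ m ih =>
    rw [mem_succ] at hz
    rw [← Nat.add_assoc, mem_succ]
    rcases hz with hz | ⟨z', hz', ha⟩
    · exact Or.inl (ih z hz)
    · exact Or.inr ⟨z', ih z' hz', ha⟩

theorem of_adj (x y : V) (h : adj x y) : y ∈ ball adj 1 x := by
  rw [mem_succ]
  exact Or.inr ⟨x, self_mem adj 0 x, h⟩

/-- a ball around a neighbour -/
theorem left (n : ℕ) (v w : V) (h : adj v w) : ball adj n w ⊆ ball adj (n + 1) v := by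
  intro z hz
  have := comp adj 1 n v w z (of_adj adj v w h) hz
  rwa [Nat.add_comm] at this

theorem symm (hsym : ∀ x y, adj x y → adj y x) (n : ℕ) (x z : V) (h : z ∈ ball adj n x) :
    x ∈ ball adj n z := by
  induction n generalizing z with
  | zero =>
    rw [mem_zero] at h ⊢
    exact h.symm
  | succ n ih =>
    rw [mem_succ] at h
    rcases h with h | ⟨z', hz', ha⟩
    · exact mono_one adj n z (ih z h)
    · exact left adj n z z' (hsym _ _ ha) (ih z' hz')

theorem card_le (Δ : ℕ) (hdeg : ∀ v, (nb adj v).card ≤ Δ) (n : ℕ) (x : V) :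
    (ball adj n x).card ≤ (Δ + 1) ^ n := by
  induction n with
  | zero =>
    simp [ball]
  | succ n ih =>
    have hsub : ball adj (n + 1) x ⊆ ball adj n x ∪ (ball adj n x).biUnion (fun z => nb adj z) := by
      intro z hz
      rw [mem_succ] at hz
      rw [mem_union, mem_biUnion]
      rcases hz with hz | ⟨z', hz', ha⟩
      · exact Or.inl hz
      · exact Or.inr ⟨z', hz', by simp [nb, ha]⟩
    calc (ball adj (n + 1) x).card
        ≤ (ball adj n x ∪ (ball adj n x).biUnion (fun z => nb adj z)).card := card_le_card hsub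
      _ ≤ (ball adj n x).card + ((ball adj n x).biUnion (fun z => nb adj z)).card :=
          card_union_le _ _
      _ ≤ (ball adj n x).card + (ball adj n x).card * Δ := by
          apply Nat.add_le_add_left
          exact card_biUnion_le_card_mul _ _ _ (fun z _ => hdeg z)
      _ = (ball adj n x).card * (Δ + 1) := by ring
      _ ≤ (Δ + 1) ^ n * (Δ + 1) := Nat.mul_le_mul_right _ ih
      _ = (Δ + 1) ^ (n + 1) := by ring

/-- an event which does not depend on the sample point and has probability `< 1` is false -/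
theorem const {Ω : Type} [Fintype Ω] [Nonempty Ω] (q : Prop) (δ : ℝ) (hδ : δ < 1)
    (h : pr (fun _ : Ω => q) ≤ δ) : ¬ q := by
  intro hq
  have h1 : pr (fun _ : Ω => q) = 1 := by
    unfold pr
    have hc : (Fintype.card Ω : ℝ) ≠ 0 := by
      exact_mod_cast Fintype.card_ne_zero
    have : (univ.filter (fun _ : Ω => q)) = univ := by
      ext ω; simp [hq]
    rw [this, card_univ, div_self hc]
  linarith

end Balls

section balls
variable {V : Type} [Fintype V] (adj : V → V → Prop) (hsym : ∀ x y, adj x y → adj y x)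
include hsym

theorem test_sub (K N n : ℕ) (i : V × Option (Fin (K + 1))) (l : V → Fin K → Fin N)
    (e : Sym2 V) (he : e ∈ test adj K N i l) : eball adj n e ⊆ ball adj (n + 2) i.1 := by
  intro u hu
  unfold eball at hu
  rw [mem_filter] at hu
  obtain ⟨-, x, hx, hux⟩ := hu
  obtain ⟨v, o⟩ := i
  cases o with
  | none =>
    simp only [test, mem_image, nb, mem_filter, mem_univ, true_and] at he
    obtain ⟨w, hw, rfl⟩ := he
    rw [Sym2.mem_iff] at hx
    rcases hx with hx | hx
    · rw [hx] at hux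
      exact Balls.mono adj (by omega) v hux
    · rw [hx] at hux
      exact Balls.mono adj (by omega) v (Balls.left adj n v w hw hux)
  | some k =>
    simp only [test, hd, mem_image, mem_filter, mem_univ, true_and] at he
    obtain ⟨⟨z, w⟩, ⟨hvw, k', _, harc⟩, rfl⟩ := he
    have hzw : adj z w := harc.1
    rw [Sym2.mem_iff] at hx
    rcases hx with hx | hx
    · rw [hx] at hux
      exact Balls.left adj (n + 1) v w hvw (Balls.left adj n w z (hsym _ _ hzw) hux)
    · rw [hx] at hux
      exact Balls.mono adj (by omega) v (Balls.left adj n v w hvw hux)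

theorem test_card (Δ : ℕ) (hdeg : ∀ v, (nb adj v).card ≤ Δ) (K N : ℕ)
    (i : V × Option (Fin (K + 1))) (l : V → Fin K → Fin N) : (test adj K N i l).card ≤ Δ := by
  obtain ⟨v, o⟩ := i
  cases o with
  | none =>
    exact card_image_le.trans (hdeg v)
  | some k =>
    have h := card_alive_add_hd adj l hsym (k : ℕ) v
    have h' := hdeg v
    change (hd adj l (k : ℕ) v).card ≤ Δ
    omega

theorem test_dep (K n Δ : ℕ) (hΔ : 2 ≤ Δ) (hdeg : ∀ v, (nb adj v).card ≤ Δ)
    (i : V × Option (Fin (K + 1))) : (univ.filter (fun i' : V × Option (Fin (K + 1)) =>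
      ∃ v, v ∈ ball adj n i.1 ∧ v ∈ ball adj n i'.1)).card ≤ Δ ^ (K + 2 + 4 * n) := by
  have hsub : (univ.filter (fun i' : V × Option (Fin (K + 1)) =>
      ∃ v, v ∈ ball adj n i.1 ∧ v ∈ ball adj n i'.1)) ⊆ ball adj (2 * n) i.1 ×ˢ univ := by
    intro i' hi'
    rw [mem_filter] at hi'
    obtain ⟨-, v, h1, h2⟩ := hi'
    rw [mem_product]
    refine ⟨?_, mem_univ _⟩
    have := Balls.comp adj n n i.1 v i'.1 h1 (Balls.symm adj hsym n _ _ h2)
    rwa [← two_mul] at this
  have h1 : (Δ + 1) ^ (2 * n) ≤ Δ ^ (4 * n) := by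
    have : Δ + 1 ≤ Δ ^ 2 := by nlinarith
    calc (Δ + 1) ^ (2 * n) ≤ (Δ ^ 2) ^ (2 * n) := Nat.pow_le_pow_left this _
      _ = Δ ^ (4 * n) := by rw [← pow_mul]; congr 1; ring
  have h2 : K + 2 ≤ Δ ^ (K + 2) := by
    calc K + 2 ≤ 2 ^ (K + 2) := (Nat.lt_two_pow_self).le
      _ ≤ Δ ^ (K + 2) := Nat.pow_le_pow_left hΔ _
  calc _ ≤ (ball adj (2 * n) i.1 ×ˢ (univ : Finset (Option (Fin (K + 1))))).card :=
        card_le_card hsub
    _ = (ball adj (2 * n) i.1).card * (K + 2) := by
        rw [card_product, card_univ, Fintype.card_option, Fintype.card_fin]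
    _ ≤ Δ ^ (4 * n) * Δ ^ (K + 2) :=
        Nat.mul_le_mul ((Balls.card_le adj Δ hdeg _ _).trans h1) h2
    _ = Δ ^ (K + 2 + 4 * n) := by rw [← pow_add]; congr 1; ring

theorem test_fin (Δ K N : ℕ) (hdeg : ∀ v, (nb adj v).card ≤ Δ) (U : Finset (Sym2 V))
    (hU : ∀ x y, s(x, y) ∈ U → adj x y) (hN : 0 < N)
    (D a δ : ℝ) (hδ : δ < 1) (hD : 0 ≤ D) (ha : 0 ≤ a) (h : Good (test adj K N) Δ D a δ U)
    (e : Sym2 V) (he : e ∈ U) :
    ((U.filter (fun e' => Conf adj e e')).card : ℝ) ≤ 2 * Δ * (D + a) := by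
  -- degrees in `U`
  have hdU : ∀ v : V, ((U.filter (fun e' => v ∈ e')).card : ℝ) ≤ D + a := by
    intro v
    have hne : Nonempty (V → Fin K → Fin N) := ⟨fun _ _ => ⟨0, hN⟩⟩
    have h0 : ¬ (D / Δ * (((nb adj v).image (fun w => s(v, w))).card : ℝ) + a <
        ((((nb adj v).image (fun w => s(v, w))) ∩ U).card : ℝ)) := by
      have hh := h (v, none)
      simp only [test] at hh
      have h00 := Balls.const (Ω := V → Fin K → Fin N) _ δ hδ hh
      intro hlt
      apply h00
      refine lt_of_le_of_lt (le_of_eq ?_) (lt_of_lt_of_eq hlt ?_)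
      · refine congrArg (fun s : Finset (Sym2 V) => D / Δ * (s.card : ℝ) + a) ?_
        ext e
        simp only [mem_image]
      · refine congrArg (fun s : Finset (Sym2 V) => (s.card : ℝ)) ?_
        ext e
        simp only [mem_inter, mem_image]
    have hsub : U.filter (fun e' => v ∈ e') ⊆ ((nb adj v).image (fun w => s(v, w))) ∩ U := by
      intro e' he'
      rw [mem_filter] at he'
      obtain ⟨h1, h2⟩ := he'
      rw [mem_inter]
      refine ⟨?_, h1⟩
      obtain ⟨w, rfl⟩ := h2
      rw [mem_image]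
      exact ⟨w, by simpa [nb] using hU _ _ h1, rfl⟩
    have hc : ((U.filter (fun e' => v ∈ e')).card : ℝ) ≤
        ((((nb adj v).image (fun w => s(v, w))) ∩ U).card : ℝ) := by
      exact_mod_cast card_le_card hsub
    have hc2 : (((nb adj v).image (fun w => s(v, w))).card : ℝ) ≤ Δ := by
      exact_mod_cast card_image_le.trans (hdeg v)
    have hc3 : D / Δ * (((nb adj v).image (fun w => s(v, w))).card : ℝ) ≤ D := by
      rcases Nat.eq_zero_or_pos Δ with h0 | h0
      · rw [h0]; simpa using hD
      · have hΔ : (0 : ℝ) < Δ := by exact_mod_cast h0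
        calc D / Δ * (((nb adj v).image (fun w => s(v, w))).card : ℝ) ≤ D / Δ * Δ :=
              mul_le_mul_of_nonneg_left hc2 (div_nonneg hD hΔ.le)
          _ = D := by field_simp
    push Not at h0
    linarith
  obtain ⟨x, y⟩ := e
  change s(x, y) ∈ U at he
  have hxy : adj x y := hU x y he
  have hsub : U.filter (fun e' => Conf adj s(x, y) e') ⊆
      (nb adj x ∪ nb adj y).biUnion (fun v => U.filter (fun e' => v ∈ e')) := by
    intro e' he'
    rw [mem_filter] at he'
    obtain ⟨h1, u, hu, v, hv, huv⟩ := he'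
    rw [mem_biUnion]
    refine ⟨v, ?_, by rw [mem_filter]; exact ⟨h1, hv⟩⟩
    rw [mem_union]
    rw [Sym2.mem_iff] at hu
    simp only [nb, mem_filter, mem_univ, true_and]
    rcases huv with huv | huv
    · rw [← huv]
      rcases hu with hu | hu
      · rw [hu]; exact Or.inr (hsym _ _ hxy)
      · rw [hu]; exact Or.inl hxy
    · rcases hu with hu | hu
      · rw [← hu]; exact Or.inl huv
      · rw [← hu]; exact Or.inr huv
  have hcard : (((nb adj x ∪ nb adj y).card : ℕ) : ℝ) ≤ 2 * Δ := by
    have h1 : (nb adj x ∪ nb adj y).card ≤ 2 * Δ := by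
      have := card_union_le (nb adj x) (nb adj y)
      have := hdeg x
      have := hdeg y
      omega
    exact_mod_cast h1
  calc ((U.filter (fun e' => Conf adj s(x, y) e')).card : ℝ)
      ≤ (((nb adj x ∪ nb adj y).biUnion (fun v => U.filter (fun e' => v ∈ e'))).card : ℝ) := by
        exact_mod_cast card_le_card hsub
    _ ≤ ∑ v ∈ nb adj x ∪ nb adj y, ((U.filter (fun e' => v ∈ e')).card : ℝ) := by
        exact_mod_cast card_biUnion_le
    _ ≤ ∑ _v ∈ nb adj x ∪ nb adj y, (D + a) := sum_le_sum (fun v _ => hdU v)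
    _ = ((nb adj x ∪ nb adj y).card : ℝ) * (D + a) := by rw [sum_const, nsmul_eq_mul]
    _ ≤ 2 * Δ * (D + a) := mul_le_mul_of_nonneg_right hcard (by linarith)

end balls

end Pool.Agent.SG
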