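import Pool.Agent.Helper66.SG.Gain
import Pool.Agent.Helper66.SEC.Phase
import Pool.Agent.Helper66.SEC.Tail

set_option autoImplicit false

namespace Pool.Agent.SG

open Finset Pool.Agent.SEC
open scoped Classical

/-! ### M5: the coverage by the used arcs, for thresholds `b t` -/

namespace Cover

open Pool.Agent.SEC.Tail (ind)

/-- the number of small indices is bounded -/
theorem card_small (n : ℕ) (r : ℝ) (hr : 0 ≤ r) :
    ((univ.filter (fun t : Fin n => ((t : ℕ) : ℝ) + 1 < r)).card : ℝ) ≤ r := by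
  have h1 : (univ.filter (fun t : Fin n => ((t : ℕ) : ℝ) + 1 < r)).card ≤ (range ⌊r⌋₊).card := by
    refine card_le_card_of_injOn (fun t => (t : ℕ)) ?_ ?_
    · intro t ht
      simp only [coe_filter, mem_univ, true_and, Set.mem_ofPred_eq] at ht
      have h2 : (t : ℕ) + 1 ≤ ⌊r⌋₊ := Nat.le_floor (by push_cast; exact ht.le)
      simp only [coe_range, Set.mem_Iio]
      omega
    · intro t _ t' _ h
      exact Fin.ext h
  rw [card_range] at h1
  exact (Nat.cast_le.2 h1).trans (Nat.floor_le hr)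

variable {V : Type} [Fintype V]

/-- heads of arcs at `v` -/
theorem card_hd_le (adj : V → V → Prop) (hsym : ∀ x y, adj x y → adj y x) {K N : ℕ}
    (l : V → Fin K → Fin N) (Δ : ℕ) (hdeg : ∀ v, (nb adj v).card ≤ Δ) (k : ℕ) (v : V) :
    (hd adj l k v).card ≤ Δ := by
  have h1 := card_alive_add_hd adj l hsym k v
  have h2 := hdeg v
  omega

/-- if no test fails then an arc is used for many thresholds -/
theorem one (adj : V → V → Prop) (hsym : ∀ x y, adj x y → adj y x)
    (Δ K N m m' : ℕ) (hΔ : 0 < Δ) (hm0 : 0 < m)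
    (hdeg : ∀ v, (nb adj v).card ≤ Δ)
    (U : Finset (Sym2 V)) (D a : ℝ) (hD : 0 ≤ D) (α : ℕ) (hα : α = ⌊D + a⌋₊)
    (b : Fin (m + m') → ℕ) (hb : ∀ t, b t = ⌊min (((t : ℕ) + 1 : ℝ) / m) 1 * D + a⌋₊)
    (l : V → Fin K → Fin N) {x y : V} (hxU : s(x, y) ∈ U)
    (hx : ∀ k < K + 1, ((hd adj l k x ∩ U).card : ℝ) ≤ D / Δ * (hd adj l k x).card + a)
    (hy : ∀ k < K + 1, ((hd adj l k y ∩ U).card : ℝ) ≤ D / Δ * (hd adj l k y).card + a)
    {k : ℕ} (hk : k < K) (harc : arc adj l k x y) :
    (m * (1 - (hd adj l k y).card / Δ) + m' : ℝ) ≤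
      ∑ t, ind ((x, y) ∈ used adj l U α (b t)) := by
  have hΔ' : (0 : ℝ) < Δ := by exact_mod_cast hΔ
  have hm' : (0 : ℝ) < m := by exact_mod_cast hm0
  set h : ℝ := ((hd adj l k y).card : ℝ) with hh
  have hh0 : 0 ≤ h := by positivity
  have hh1 : h ≤ Δ := by
    rw [hh]
    exact_mod_cast card_hd_le adj hsym l Δ hdeg k y
  have hr : 0 ≤ m * (h / Δ) := by positivity
  have hsmall := card_small (m + m') (m * (h / Δ)) hr
  have hused : ∀ t : Fin (m + m'), ¬ (((t : ℕ) : ℝ) + 1 < m * (h / Δ)) →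
      (x, y) ∈ used adj l U α (b t) := by
    intro t ht
    rw [not_lt] at ht
    unfold used
    rw [mem_filter]
    refine ⟨mem_univ _, hxU, k, hk, harc, ?_, ?_⟩
    · rw [hα]
      apply Nat.le_floor
      refine (hx (k + 1) (by omega)).trans ?_
      have h1 : ((hd adj l (k + 1) x).card : ℝ) ≤ Δ := by
        exact_mod_cast card_hd_le adj hsym l Δ hdeg (k + 1) x
      have h2 : D / Δ * (hd adj l (k + 1) x).card ≤ D / Δ * Δ :=
        mul_le_mul_of_nonneg_left h1 (by positivity)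
      rw [div_mul_cancel₀ _ hΔ'.ne'] at h2
      linarith
    · rw [hb]
      apply Nat.le_floor
      refine (hy k (by omega)).trans ?_
      have h1 : h / Δ ≤ min (((t : ℕ) + 1 : ℝ) / m) 1 := by
        apply le_min
        · rw [le_div_iff₀ hm', mul_comm]
          exact ht
        · rw [div_le_one hΔ']
          exact hh1
      have h2 : D / Δ * h = h / Δ * D := by ring
      have h3 := mul_le_mul_of_nonneg_right h1 hD
      rw [← hh, h2]
      linarith
  have hcount : (((m + m' : ℕ) : ℝ)) - m * (h / Δ) ≤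
      ∑ t, ind ((x, y) ∈ used adj l U α (b t)) := by
    have h1 := card_filter_add_card_filter_not (s := (univ : Finset (Fin (m + m'))))
      (fun t => ((t : ℕ) : ℝ) + 1 < m * (h / Δ))
    rw [card_univ, Fintype.card_fin] at h1
    have h2 : ((univ.filter (fun t : Fin (m + m') => ¬ (((t : ℕ) : ℝ) + 1 < m * (h / Δ)))).card : ℝ)
        ≤ ∑ t, ind ((x, y) ∈ used adj l U α (b t)) := by
      rw [Pool.Agent.SEC.Tail.sum_ind]
      refine Nat.cast_le.2 (card_le_card fun t ht => ?_)
      rw [mem_filter] at ht ⊢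
      exact ⟨ht.1, hused t ht.2⟩
    have h3 : ((univ.filter (fun t : Fin (m + m') => ((t : ℕ) : ℝ) + 1 < m * (h / Δ))).card : ℝ) +
        ((univ.filter (fun t : Fin (m + m') => ¬ (((t : ℕ) : ℝ) + 1 < m * (h / Δ)))).card : ℝ) =
        ((m + m' : ℕ) : ℝ) := by
      exact_mod_cast h1
    linarith
  push_cast at hcount
  linarith

/-- the pointwise inequality -/
theorem ptw (adj : V → V → Prop) (hsym : ∀ x y, adj x y → adj y x) (hirr : ∀ x, ¬ adj x x)
    (Δ K N m m' : ℕ) (hΔ : 0 < Δ) (hm0 : 0 < m)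
    (hdeg : ∀ v, (nb adj v).card ≤ Δ)
    (U : Finset (Sym2 V)) (D a : ℝ) (hD : 0 ≤ D) (α : ℕ) (hα : α = ⌊D + a⌋₊)
    (b : Fin (m + m') → ℕ) (hb : ∀ t, b t = ⌊min (((t : ℕ) + 1 : ℝ) / m) 1 * D + a⌋₊)
    (l : V → Fin K → Fin N) {x y : V} (hxy : adj x y) (hxU : s(x, y) ∈ U) :
    (∑ k ∈ range K, ((if arc adj l k x y then (m * (1 - (hd adj l k y).card / Δ) + m' : ℝ) else 0) +
        (if arc adj l k y x then (m * (1 - (hd adj l k x).card / Δ) + m' : ℝ) else 0))) -
      (m + m') * ind (∃ i ∈ ({x, y} : Finset V) ×ˢ (univ : Finset (Fin (K + 1))),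
        D / Δ * ((test adj K N (i.1, some i.2) l).card : ℝ) + a <
          ((test adj K N (i.1, some i.2) l ∩ U).card : ℝ)) ≤
    ∑ t, ind ((x, y) ∈ used adj l U α (b t) ∨ (y, x) ∈ used adj l U α (b t)) := by
  have hΔ' : (0 : ℝ) < Δ := by exact_mod_cast hΔ
  have hm' : (0 : ℝ) < m := by exact_mod_cast hm0
  have hind0 : ∀ P : Prop, 0 ≤ ind P := by
    intro P
    by_cases h : P
    · rw [Pool.Agent.SEC.Tail.ind_pos h]; norm_num
    · rw [Pool.Agent.SEC.Tail.ind_neg h]
  have hmono : ∀ P Q : Prop, (P → Q) → ind P ≤ ind Q := by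
    intro P Q hPQ
    by_cases h : P
    · rw [Pool.Agent.SEC.Tail.ind_pos h, Pool.Agent.SEC.Tail.ind_pos (hPQ h)]
    · rw [Pool.Agent.SEC.Tail.ind_neg h]; exact hind0 Q
  have hne : x ≠ y := by
    rintro rfl
    exact hirr x hxy
  -- an arc excludes everything else
  have hexcl : ∀ {u v : V}, u ≠ v → adj u v → ∀ {k k' : ℕ}, arc adj l k u v → ¬ arc adj l k' v u := by
    intro u v huv hadj k k' h h'
    rcases Nat.lt_trichotomy k k' with hlt | heq | hgt
    · exact arc_dead_tail adj l h (alive_mono adj l hlt h'.2.2.1)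
    · subst heq
      exact h.2.2.2.2 v (Ne.symm huv) (Or.inl hadj) h'.2.2.2.1
    · exact arc_dead_tail adj l h' (alive_mono adj l hgt h.2.2.1)
  -- the sum of the weights
  have hval : ∀ {u v : V}, u ≠ v → adj u v → ∀ {k : ℕ}, k < K → arc adj l k u v →
      ∑ k ∈ range K, ((if arc adj l k u v then (m * (1 - (hd adj l k v).card / Δ) + m' : ℝ) else 0) +
        (if arc adj l k v u then (m * (1 - (hd adj l k u).card / Δ) + m' : ℝ) else 0)) =
      m * (1 - (hd adj l k v).card / Δ) + m' := by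
    intro u v huv hadj k hk h
    rw [Finset.sum_eq_single_of_mem k (mem_range.2 hk)]
    · rw [if_pos h, if_neg (hexcl huv hadj h), add_zero]
    · intro j _ hj
      rw [if_neg, if_neg (hexcl huv hadj h), add_zero]
      intro h'
      exact hj (arc_same adj l hsym h' h)
  have hle : ∀ (u : V) (k : ℕ), (m * (1 - (hd adj l k u).card / Δ) + m' : ℝ) ≤ m + m' := by
    intro u k
    have h1 : (0 : ℝ) ≤ (hd adj l k u).card / Δ := by positivity
    nlinarith
  have hRnn : 0 ≤ ∑ t, ind ((x, y) ∈ used adj l U α (b t) ∨ (y, x) ∈ used adj l U α (b t)) :=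
    Finset.sum_nonneg fun t _ => hind0 _
  by_cases hbad : ∃ i ∈ ({x, y} : Finset V) ×ˢ (univ : Finset (Fin (K + 1))),
        D / Δ * ((test adj K N (i.1, some i.2) l).card : ℝ) + a <
          ((test adj K N (i.1, some i.2) l ∩ U).card : ℝ)
  · rw [Pool.Agent.SEC.Tail.ind_pos hbad, mul_one]
    have hS : ∑ k ∈ range K,
        ((if arc adj l k x y then (m * (1 - (hd adj l k y).card / Δ) + m' : ℝ) else 0) +
        (if arc adj l k y x then (m * (1 - (hd adj l k x).card / Δ) + m' : ℝ) else 0)) ≤ m + m' := by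
      by_cases h1 : ∃ k < K, arc adj l k x y
      · obtain ⟨k, hk, h1⟩ := h1
        rw [hval hne hxy hk h1]
        exact hle y k
      · by_cases h2 : ∃ k < K, arc adj l k y x
        · obtain ⟨k, hk, h2⟩ := h2
          have h3 := hval hne.symm (hsym _ _ hxy) hk h2
          rw [Finset.sum_congr rfl (fun k _ => add_comm _ _), h3]
          exact hle x k
        · push Not at h1 h2
          rw [Finset.sum_eq_zero]
          · positivity
          · intro k hk
            rw [if_neg (h1 k (mem_range.1 hk)), if_neg (h2 k (mem_range.1 hk)), add_zero]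
    linarith
  · rw [Pool.Agent.SEC.Tail.ind_neg hbad, mul_zero, sub_zero]
    have htest : ∀ u ∈ ({x, y} : Finset V), ∀ k < K + 1,
        ((hd adj l k u ∩ U).card : ℝ) ≤ D / Δ * (hd adj l k u).card + a := by
      intro u hu k hk
      by_contra hcon
      rw [not_le] at hcon
      apply hbad
      refine ⟨(u, ⟨k, hk⟩), ?_, ?_⟩
      · rw [mem_product]
        exact ⟨hu, mem_univ _⟩
      · exact hcon
    have htx := htest x (by simp)
    have hty := htest y (by simp)
    by_cases h1 : ∃ k < K, arc adj l k x y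
    · obtain ⟨k, hk, h1⟩ := h1
      rw [hval hne hxy hk h1]
      refine (one adj hsym Δ K N m m' hΔ hm0 hdeg U D a hD α hα b hb l hxU htx hty hk h1).trans ?_
      exact Finset.sum_le_sum fun t _ => hmono _ _ Or.inl
    · by_cases h2 : ∃ k < K, arc adj l k y x
      · obtain ⟨k, hk, h2⟩ := h2
        have h3 := hval hne.symm (hsym _ _ hxy) hk h2
        rw [Finset.sum_congr rfl (fun k _ => add_comm _ _), h3]
        have hyU : s(y, x) ∈ U := by
          rw [Sym2.eq_swap]
          exact hxU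
        refine (one adj hsym Δ K N m m' hΔ hm0 hdeg U D a hD α hα b hb l hyU hty htx hk h2).trans ?_
        exact Finset.sum_le_sum fun t _ => hmono _ _ Or.inr
      · push Not at h1 h2
        rw [Finset.sum_eq_zero]
        · exact hRnn
        · intro k hk
          rw [if_neg (h1 k (mem_range.1 hk)), if_neg (h2 k (mem_range.1 hk)), add_zero]

end Cover

theorem cover {V : Type} [Fintype V] (adj : V → V → Prop) (hsym : ∀ x y, adj x y → adj y x)
    (hirr : ∀ x, ¬ adj x x) (Δ H K m m' : ℕ) (hΔ : 0 < Δ) (hH : 0 < H) (hm0 : 0 < m)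
    (hdeg : ∀ v, (nb adj v).card ≤ Δ) (hm : m * H ≤ 2 * m' * K)
    (U : Finset (Sym2 V)) (D a δ : ℝ) (hD : 0 ≤ D) (ha : 0 ≤ a) (hδ : 0 ≤ δ)
    (hU : Good (test adj K (H * Δ)) Δ D a δ U) (α : ℕ) (hα : α = ⌊D + a⌋₊)
    (b : Fin (m + m') → ℕ) (hb : ∀ t, b t = ⌊min (((t : ℕ) + 1 : ℝ) / m) 1 * D + a⌋₊)
    {x y : V} (hxy : adj x y) (hxU : s(x, y) ∈ U) :
    (1 - 2 / (H : ℝ)) * (m / Δ) - (m + m') * (2 * (K + 1) * δ) ≤ ∑ t,
      pr (fun l : V → Fin K → Fin (H * Δ) =>
        (x, y) ∈ used adj l U α (b t) ∨ (y, x) ∈ used adj l U α (b t)) := by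
  have hgain := gain adj hsym Δ H K m m' hΔ hH hdeg hm hxy
  set bad : (V → Fin K → Fin (H * Δ)) → Prop := fun l =>
    ∃ i ∈ ({x, y} : Finset V) ×ˢ (univ : Finset (Fin (K + 1))),
        D / Δ * ((test adj K (H * Δ) (i.1, some i.2) l).card : ℝ) + a <
          ((test adj K (H * Δ) (i.1, some i.2) l ∩ U).card : ℝ) with hbad
  have hprbad : pr bad ≤ 2 * (K + 1) * δ := by
    have h1 := Pool.Agent.SEC.Phase.pr_exists_le
      (({x, y} : Finset V) ×ˢ (univ : Finset (Fin (K + 1))))
      (fun i (l : V → Fin K → Fin (H * Δ)) =>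
        D / Δ * ((test adj K (H * Δ) (i.1, some i.2) l).card : ℝ) + a <
          ((test adj K (H * Δ) (i.1, some i.2) l ∩ U).card : ℝ))
    refine h1.trans ?_
    refine (Finset.sum_le_card_nsmul _ _ δ (fun i _ => ?_)).trans ?_
    · refine le_trans (Pool.Agent.SEC.Phase.pr_mono fun l hl => ?_) (hU (i.1, some i.2))
      refine lt_of_lt_of_eq hl ?_
      congr 2
      ext e
      simp only [mem_inter]
    rw [nsmul_eq_mul]
    apply mul_le_mul_of_nonneg_right _ hδ
    rw [card_product, card_univ, Fintype.card_fin]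
    push_cast
    apply mul_le_mul_of_nonneg_right _ (by positivity)
    exact_mod_cast (Finset.card_le_two : ({x, y} : Finset V).card ≤ 2)
  set n : ℝ := (Fintype.card (V → Fin K → Fin (H * Δ)) : ℝ) with hn
  have hn0 : 0 ≤ n := by positivity
  have hL : ∑ k ∈ range K,
      (ex (fun l : V → Fin K → Fin (H * Δ) =>
          if arc adj l k x y then (m * (1 - (hd adj l k y).card / Δ) + m' : ℝ) else 0) +
        ex (fun l : V → Fin K → Fin (H * Δ) =>
          if arc adj l k y x then (m * (1 - (hd adj l k x).card / Δ) + m' : ℝ) else 0)) =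
      (∑ l : V → Fin K → Fin (H * Δ), ∑ k ∈ range K,
        ((if arc adj l k x y then (m * (1 - (hd adj l k y).card / Δ) + m' : ℝ) else 0) +
        (if arc adj l k y x then (m * (1 - (hd adj l k x).card / Δ) + m' : ℝ) else 0))) / n := by
    rw [Finset.sum_comm, Finset.sum_div]
    apply Finset.sum_congr rfl
    intro k _
    unfold ex
    rw [← add_div, ← Finset.sum_add_distrib]
  have hR : ∑ t, pr (fun l : V → Fin K → Fin (H * Δ) =>
        (x, y) ∈ used adj l U α (b t) ∨ (y, x) ∈ used adj l U α (b t)) =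
      (∑ l : V → Fin K → Fin (H * Δ), ∑ t,
        Pool.Agent.SEC.Tail.ind
          ((x, y) ∈ used adj l U α (b t) ∨ (y, x) ∈ used adj l U α (b t))) / n := by
    rw [Finset.sum_comm, Finset.sum_div]
    apply Finset.sum_congr rfl
    intro t _
    rw [Pool.Agent.SEC.Tail.pr_eq_sum]
  have hB : pr bad = (∑ l : V → Fin K → Fin (H * Δ), Pool.Agent.SEC.Tail.ind (bad l)) / n := by
    rw [Pool.Agent.SEC.Tail.pr_eq_sum]
  have hmain : (∑ l : V → Fin K → Fin (H * Δ), ∑ k ∈ range K,
        ((if arc adj l k x y then (m * (1 - (hd adj l k y).card / Δ) + m' : ℝ) else 0) +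
        (if arc adj l k y x then (m * (1 - (hd adj l k x).card / Δ) + m' : ℝ) else 0))) / n -
      (m + m') * pr bad ≤
      (∑ l : V → Fin K → Fin (H * Δ), ∑ t,
        Pool.Agent.SEC.Tail.ind
          ((x, y) ∈ used adj l U α (b t) ∨ (y, x) ∈ used adj l U α (b t))) / n := by
    rw [hB, ← mul_div_assoc, ← sub_div]
    apply div_le_div_of_nonneg_right _ hn0
    rw [Finset.mul_sum, ← Finset.sum_sub_distrib]
    apply Finset.sum_le_sum
    intro l _
    exact Cover.ptw adj hsym hirr Δ K (H * Δ) m m' hΔ hm0 hdeg U D a hD α hα b hb l hxy hxU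
  rw [hR]
  rw [hL] at hgain
  have h5 : ((m : ℝ) + m') * pr bad ≤ (m + m') * (2 * (K + 1) * δ) :=
    mul_le_mul_of_nonneg_left hprbad (by positivity)
  linarith

end Pool.Agent.SG
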