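import Pool.Agent.Helper66.SEC.LLL

/-!
# Strong edge colouring of general graphs: definitions

`adj : V → V → Prop` is the adjacency relation of a graph, edges are elements of `Sym2 V`.
-/

set_option autoImplicit false

namespace Pool.Agent.SG

open Finset Pool.Agent.SEC
open scoped Classical

/-- expectation under the uniform distribution on a finite type -/
noncomputable def ex {Ω : Type} [Fintype Ω] (f : Ω → ℝ) : ℝ := (∑ ω, f ω) / Fintype.card Ω

/-! ### Abstract part -/

/-- The invariant of the nibble: for every test `i`, with probability at least `1 - δ`, the set `U`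
contains at most the proportion `D / Δ` of the random set `S i l`, up to `a`. -/
def Good {E I Λ : Type} [Fintype Λ] (S : I → Λ → Finset E) (Δ D a δ : ℝ) (U : Finset E) : Prop :=
  ∀ i, pr (fun l => D / Δ * ((S i l).card : ℝ) + a < ((S i l ∩ U).card : ℝ)) ≤ δ

/-- A family of random local sets of pairwise compatible elements covering `U`; `R` is the conflict
relation, and membership of `e` depends on the sample points of the vertices of `B e` only. -/
structure Fam {V E : Type} [Fintype V] (R : E → E → Prop) (B : E → Finset V) (U : Finset E)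
    (p q : ℝ) (ι : Type) [Fintype ι] where
  A : ι → Type
  fin : ∀ j, Fintype (A j)
  ne : ∀ j, Nonempty (A j)
  M : ∀ j, (V → A j) → Finset E
  ind : ∀ j ω, ∀ e ∈ M j ω, ∀ e' ∈ M j ω, e ≠ e' → ¬ R e e'
  loc : ∀ j e (ω ω' : V → A j), (∀ v ∈ B e, ω v = ω' v) → (e ∈ M j ω ↔ e ∈ M j ω')
  cov : ∀ e ∈ U, p ≤ ∑ j, pr (fun ω : V → A j => e ∈ M j ω)
  pair : ∀ e ∈ U, ∀ e' ∈ U, e ≠ e' → ∀ j,
    pr (fun ω : V → A j => e ∈ M j ω ∧ e' ∈ M j ω) ≤ q

/-! ### Random greedy colouring -/

/-- the first colour outside `B` in the order given by `π` -/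
noncomputable def pick {P : ℕ} (π : Equiv.Perm (Fin P)) (B : Finset (Fin P)) : Option (Fin P) :=
  ((List.finRange P).map π).find? (fun c => decide (c ∉ B))

/-- greedy colouring in the order `ord`: after stage `n` the elements `y` with `ord y < n` are
coloured, `y` avoids the colours of the elements of `back y` -/
noncomputable def grd {Y : Type} {P : ℕ} (ord : Y → ℕ) (back : Y → Finset Y)
    (π : Y → Equiv.Perm (Fin P)) : ℕ → Y → Option (Fin P)
  | 0 => fun _ => none
  | n + 1 => fun y =>
      if ord y = n then
        pick (π y) (univ.filter (fun c => ∃ y' ∈ back y, grd ord back π n y' = some c))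
      else grd ord back π n y

/-- the greedy colouring -/
noncomputable def gcol {Y : Type} {P : ℕ} (ord : Y → ℕ) (back : Y → Finset Y)
    (π : Y → Equiv.Perm (Fin P)) (y : Y) : Option (Fin P) := grd ord back π (ord y + 1) y

/-! ### The domination process -/

variable {V : Type} [Fintype V]

/-- neighbours of `v` -/
noncomputable def nb (adj : V → V → Prop) (v : V) : Finset V := univ.filter (fun w => adj v w)

/-- `v` rings at level `k` -/
def rings {K N : ℕ} (l : V → Fin K → Fin N) (k : ℕ) (v : V) : Prop :=
  ∃ h : k < K, (l v ⟨k, h⟩ : ℕ) = 0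

/-- `v` is alive before level `k`: no vertex of its closed neighbourhood has rung while alive -/
def alive (adj : V → V → Prop) {K N : ℕ} (l : V → Fin K → Fin N) : ℕ → V → Prop
  | 0 => fun _ => True
  | k + 1 => fun v => alive adj l k v ∧ ∀ z, (z = v ∨ adj v z) → alive adj l k z → ¬ rings l k z

/-- the arc `(z, y)` is created at level `k` -/
def arc (adj : V → V → Prop) {K N : ℕ} (l : V → Fin K → Fin N) (k : ℕ) (z y : V) : Prop :=
  adj z y ∧ alive adj l k z ∧ alive adj l k y ∧ rings l k z ∧
    ∀ w, w ≠ z → (adj z w ∨ adj y w) → ¬ rings l k w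

/-- the edges of the arcs created before level `k` whose head is a neighbour of `v` -/
noncomputable def hd (adj : V → V → Prop) {K N : ℕ} (l : V → Fin K → Fin N) (k : ℕ) (v : V) :
    Finset (Sym2 V) :=
  (univ.filter (fun a : V × V => adj v a.2 ∧ ∃ k' < k, arc adj l k' a.1 a.2)).image
    (fun a => s(a.1, a.2))

/-- the tests: the edges at `v`, and the sets `hd adj l k v` for `k ≤ K` -/
noncomputable def test (adj : V → V → Prop) (K N : ℕ) :
    V × Option (Fin (K + 1)) → (V → Fin K → Fin N) → Finset (Sym2 V)
  | (v, none), _ => (nb adj v).image (fun w => s(v, w))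
  | (v, some k), l => hd adj l k v

/-- the arcs which are used; `α` is the bound for the tail and `b` the bound for the head -/
noncomputable def used (adj : V → V → Prop) {K N : ℕ} (l : V → Fin K → Fin N)
    (U : Finset (Sym2 V)) (α b : ℕ) : Finset (V × V) :=
  univ.filter (fun a => s(a.1, a.2) ∈ U ∧ ∃ k < K, arc adj l k a.1 a.2 ∧
    (hd adj l (k + 1) a.1 ∩ U).card ≤ α ∧ (hd adj l k a.2 ∩ U).card ≤ b)

/-- the level at which `v` dies -/
noncomputable def dl (adj : V → V → Prop) {K N : ℕ} (l : V → Fin K → Fin N) (v : V) : ℕ :=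
  ((range K).filter (fun k => alive adj l (k + 1) v)).card

/-- for a head `y` of a used arc `(z, y)`: the heads `y'` of used arcs which are coloured before `y`
and are in conflict with it: those of smaller level adjacent to `z` or `y`, and those with the same
tail and smaller index -/
noncomputable def back (adj : V → V → Prop) {K N : ℕ} (l : V → Fin K → Fin N)
    (U : Finset (Sym2 V)) (α b : ℕ) (idx : V → ℕ) (y : V) : Finset V :=
  univ.filter (fun y' => ∃ z z', (z, y) ∈ used adj l U α b ∧ (z', y') ∈ used adj l U α b ∧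
    ((dl adj l y' < dl adj l y ∧ (adj z y' ∨ adj y y')) ∨ (z' = z ∧ idx y' < idx y)))

/-- the order in which the heads are coloured -/
noncomputable def ord (adj : V → V → Prop) {K N : ℕ} (l : V → Fin K → Fin N) (idx : V → ℕ)
    (y : V) : ℕ := dl adj l y * Fintype.card V + idx y

/-- the colour of a head -/
noncomputable def colr (adj : V → V → Prop) {K N P : ℕ} (U : Finset (Sym2 V)) (α b : ℕ)
    (idx : V → ℕ) (l : V → Fin K → Fin N) (π : V → Equiv.Perm (Fin P)) (y : V) :
    Option (Fin P) :=
  gcol (ord adj l idx) (back adj l U α b idx) π y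

/-- one random induced matching, contained in `U` -/
noncomputable def cls (adj : V → V → Prop) {K N P : ℕ} (U : Finset (Sym2 V)) (α b : ℕ)
    (idx : V → ℕ) (c₀ : Fin P) (ω : V → (Fin K → Fin N) × Equiv.Perm (Fin P)) :
    Finset (Sym2 V) :=
  ((used adj (fun v => (ω v).1) U α b).filter (fun a =>
    colr adj U α b idx (fun v => (ω v).1) (fun v => (ω v).2) a.2 = some c₀ ∧
    ∀ z' y', adj a.2 y' → z' ≠ a.1 → (z', y') ∈ used adj (fun v => (ω v).1) U α b →
      dl adj (fun v => (ω v).1) y' = dl adj (fun v => (ω v).1) a.2 →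
      colr adj U α b idx (fun v => (ω v).1) (fun v => (ω v).2) y' ≠ some c₀)).image
    (fun a => s(a.1, a.2))

/-- conflict of two edges in a strong edge colouring -/
def Conf (adj : V → V → Prop) (e e' : Sym2 V) : Prop := ∃ u ∈ e, ∃ v ∈ e', u = v ∨ adj u v

/-- balls -/
noncomputable def ball (adj : V → V → Prop) : ℕ → V → Finset V
  | 0 => fun x => {x}
  | n + 1 => fun x => univ.filter (fun z => z ∈ ball adj n x ∨ ∃ z' ∈ ball adj n x, adj z' z)

/-- balls around edges -/
noncomputable def eball (adj : V → V → Prop) (n : ℕ) (e : Sym2 V) : Finset V :=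
  univ.filter (fun v => ∃ x ∈ e, v ∈ ball adj n x)

end Pool.Agent.SG
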