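import Pool.Agent.Helper66.SG.Process

set_option autoImplicit false

namespace Pool.Agent.SG

open Finset Pool.Agent.SEC
open scoped Classical

/-! ### M4: the gain of the process -/

namespace Gain

section exl
variable {Ω : Type} [Fintype Ω]

theorem ex_mono {f g : Ω → ℝ} (h : ∀ l, f l ≤ g l) : ex f ≤ ex g := by
  unfold ex
  exact div_le_div_of_nonneg_right (sum_le_sum fun l _ => h l) (by positivity)

theorem ex_nonneg {f : Ω → ℝ} (h : ∀ l, 0 ≤ f l) : 0 ≤ ex f := by
  unfold ex
  exact div_nonneg (sum_nonneg fun l _ => h l) (by positivity)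

theorem ex_add (f g : Ω → ℝ) : ex (fun l => f l + g l) = ex f + ex g := by
  unfold ex
  rw [sum_add_distrib, add_div]

theorem ex_sub (f g : Ω → ℝ) : ex (fun l => f l - g l) = ex f - ex g := by
  unfold ex
  rw [sum_sub_distrib, sub_div]

theorem ex_mul (c : ℝ) (f : Ω → ℝ) : ex (fun l => c * f l) = c * ex f := by
  unfold ex
  rw [← mul_sum, mul_div_assoc]

theorem ex_sum {ι : Type} (s : Finset ι) (f : ι → Ω → ℝ) :
    ex (fun l => ∑ i ∈ s, f i l) = ∑ i ∈ s, ex (f i) := by
  unfold ex
  rw [sum_comm, sum_div]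

end exl


variable {V : Type} [Fintype V] {K N : ℕ}

/-- change one coordinate -/
noncomputable def upd (l : V → Fin K → Fin N) (z : V) (k : Fin K) (c : Fin N) :
    V → Fin K → Fin N :=
  Function.update l z (Function.update (l z) k c)

theorem upd_same (l : V → Fin K → Fin N) (z : V) (k : Fin K) (c : Fin N) :
    upd l z k c z k = c := by
  simp [upd]

theorem upd_ne (l : V → Fin K → Fin N) (z : V) (k : Fin K) (c : Fin N) (v : V) (j : Fin K)
    (h : v ≠ z ∨ j ≠ k) : upd l z k c v j = l v j := by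
  unfold upd
  by_cases hv : v = z
  · subst hv
    have hj : j ≠ k := by
      rcases h with h | h
      · exact absurd rfl h
      · exact h
    simp [hj]
  · simp [hv]

theorem upd_upd (l : V → Fin K → Fin N) (z : V) (k : Fin K) (a b : Fin N) :
    upd (upd l z k a) z k b = upd l z k b := by
  funext v j
  by_cases h : v = z ∧ j = k
  · rw [h.1, h.2, upd_same, upd_same]
  · have h' : v ≠ z ∨ j ≠ k := by
      by_contra h2
      push Not at h2
      exact h h2
    rw [upd_ne _ _ _ _ _ _ h', upd_ne _ _ _ _ _ _ h', upd_ne _ _ _ _ _ _ h']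

theorem upd_self (l : V → Fin K → Fin N) (z : V) (k : Fin K) : upd l z k (l z k) = l := by
  simp [upd]

/-- exchange the values `a` and `b` of one coordinate -/
noncomputable def swp (z : V) (k : Fin K) (a b : Fin N) :
    (V → Fin K → Fin N) ≃ (V → Fin K → Fin N) where
  toFun l := upd l z k (Equiv.swap a b (l z k))
  invFun l := upd l z k (Equiv.swap a b (l z k))
  left_inv l := by
    simp only [upd_same, upd_upd, Equiv.swap_apply_self, upd_self]
  right_inv l := by
    simp only [upd_same, upd_upd, Equiv.swap_apply_self, upd_self]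

theorem rings_iff (l : V → Fin K → Fin N) (hN : 0 < N) (k : Fin K) (z : V) :
    rings l (k : ℕ) z ↔ l z k = ⟨0, hN⟩ := by
  unfold rings
  constructor
  · rintro ⟨_, h⟩
    exact Fin.ext h
  · intro h
    exact ⟨k.2, by rw [Fin.eta, h]⟩

theorem ring_one (hN : 0 < N) (z : V) (k : Fin K) (f : (V → Fin K → Fin N) → ℝ)
    (hf : ∀ l c, f (upd l z k c) = f l) :
    ex (fun l => f l * (if rings l (k : ℕ) z then (1 : ℝ) else 0)) = (1 / N) * ex f := by
  have hN' : (N : ℝ) ≠ 0 := by exact_mod_cast hN.ne'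
  set A : Fin N → ℝ := fun c => ∑ l : V → Fin K → Fin N, f l * (if l z k = c then (1 : ℝ) else 0)
    with hA
  have h1 : ∀ c, A c = A ⟨0, hN⟩ := by
    intro c
    simp only [hA]
    refine Fintype.sum_equiv (swp z k ⟨0, hN⟩ c) _ _ fun l => ?_
    have e1 : (swp z k ⟨0, hN⟩ c) l = upd l z k (Equiv.swap ⟨0, hN⟩ c (l z k)) := rfl
    rw [e1, hf, upd_same]
    congr 1
    by_cases h : l z k = c
    · rw [if_pos h, if_pos (by rw [h, Equiv.swap_apply_right])]
    · rw [if_neg h, if_neg]
      intro h2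
      apply h
      have h3 := congrArg (Equiv.swap (⟨0, hN⟩ : Fin N) c) h2
      rw [Equiv.swap_apply_self, Equiv.swap_apply_left] at h3
      exact h3
  have h2 : ∑ c, A c = ∑ l, f l := by
    simp only [hA]
    rw [sum_comm]
    refine sum_congr rfl fun l _ => ?_
    rw [← mul_sum]
    simp
  have h3 : (N : ℝ) * A ⟨0, hN⟩ = ∑ l, f l := by
    rw [← h2, sum_congr rfl fun c _ => h1 c, sum_const, card_univ, Fintype.card_fin, nsmul_eq_mul]
  have h4 : ∑ l, f l * (if rings l (k : ℕ) z then (1 : ℝ) else 0) = A ⟨0, hN⟩ := by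
    simp only [hA]
    refine sum_congr rfl fun l _ => ?_
    congr 1
    by_cases h : rings l (k : ℕ) z
    · rw [if_pos h, if_pos ((rings_iff l hN k z).mp h)]
    · rw [if_neg h, if_neg (fun h2 => h ((rings_iff l hN k z).mpr h2))]
  unfold ex
  rw [h4, ← h3]
  field_simp

/-- dependence on the levels below `k` only -/
def Low (k : ℕ) (f : (V → Fin K → Fin N) → ℝ) : Prop :=
  ∀ l l', (∀ v (j : Fin K), (j : ℕ) < k → l v j = l' v j) → f l = f l'

theorem Low.upd {k : Fin K} {f : (V → Fin K → Fin N) → ℝ} (h : Low (k : ℕ) f)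
    (l : V → Fin K → Fin N) (z : V) (c : Fin N) : f (Gain.upd l z k c) = f l := by
  apply h
  intro v j hj
  apply upd_ne
  right
  intro h2
  rw [h2] at hj
  exact lt_irrefl _ hj

theorem rings_congr {l l' : V → Fin K → Fin N} {k : ℕ} {v : V}
    (h : ∀ v (j : Fin K), (j : ℕ) < k + 1 → l v j = l' v j) : rings l k v ↔ rings l' k v := by
  unfold rings
  constructor
  · rintro ⟨hk, h2⟩
    exact ⟨hk, by rw [← h v ⟨k, hk⟩ (Nat.lt_succ_self k)]; exact h2⟩
  · rintro ⟨hk, h2⟩
    exact ⟨hk, by rw [h v ⟨k, hk⟩ (Nat.lt_succ_self k)]; exact h2⟩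

theorem alive_congr (adj : V → V → Prop) {l l' : V → Fin K → Fin N} {k : ℕ}
    (h : ∀ v (j : Fin K), (j : ℕ) < k → l v j = l' v j) (v : V) :
    alive adj l k v ↔ alive adj l' k v := by
  induction k generalizing v with
  | zero => simp [alive]
  | succ k ih =>
    have ih' := fun v => ih (fun v j hj => h v j (Nat.lt_succ_of_lt hj)) v
    have hr := fun z => rings_congr (v := z) h
    simp only [alive]
    rw [ih']
    constructor
    · rintro ⟨h1, h2⟩
      exact ⟨h1, fun z hz hz2 hz3 => h2 z hz ((ih' z).mpr hz2) ((hr z).mpr hz3)⟩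
    · rintro ⟨h1, h2⟩
      exact ⟨h1, fun z hz hz2 hz3 => h2 z hz ((ih' z).mp hz2) ((hr z).mp hz3)⟩

theorem arc_congr (adj : V → V → Prop) {l l' : V → Fin K → Fin N} {k : ℕ}
    (h : ∀ v (j : Fin K), (j : ℕ) < k + 1 → l v j = l' v j) (z y : V) :
    arc adj l k z y ↔ arc adj l' k z y := by
  have ha := fun v => alive_congr adj (k := k) (fun v j hj => h v j (Nat.lt_succ_of_lt hj)) v
  have hr := fun z => rings_congr (v := z) h
  unfold arc
  rw [ha, ha, hr]
  constructor
  · rintro ⟨h1, h2, h3, h4, h5⟩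
    exact ⟨h1, h2, h3, h4, fun w hw hw2 hw3 => h5 w hw hw2 ((hr w).mpr hw3)⟩
  · rintro ⟨h1, h2, h3, h4, h5⟩
    exact ⟨h1, h2, h3, h4, fun w hw hw2 hw3 => h5 w hw hw2 ((hr w).mp hw3)⟩

theorem hd_congr (adj : V → V → Prop) {l l' : V → Fin K → Fin N} {k : ℕ}
    (h : ∀ v (j : Fin K), (j : ℕ) < k → l v j = l' v j) (v : V) :
    hd adj l k v = hd adj l' k v := by
  unfold hd
  congr 1
  ext a
  simp only [mem_filter, mem_univ, true_and]
  have : ∀ k' < k, (arc adj l k' a.1 a.2 ↔ arc adj l' k' a.1 a.2) := by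
    intro k' hk'
    exact arc_congr adj (fun v j hj => h v j (by omega)) _ _
  constructor
  · rintro ⟨h1, k', hk', h2⟩
    exact ⟨h1, k', hk', (this k' hk').mp h2⟩
  · rintro ⟨h1, k', hk', h2⟩
    exact ⟨h1, k', hk', (this k' hk').mpr h2⟩

/-- both ends are alive -/
noncomputable def FF (adj : V → V → Prop) (x y : V) (k : ℕ) (l : V → Fin K → Fin N) : ℝ :=
  if alive adj l k x ∧ alive adj l k y then 1 else 0

theorem FF_nonneg (adj : V → V → Prop) (x y : V) (k : ℕ) (l : V → Fin K → Fin N) :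
    0 ≤ FF adj x y k l := by
  unfold FF
  split_ifs <;> norm_num

theorem FF_comm (adj : V → V → Prop) (x y : V) (k : ℕ) (l : V → Fin K → Fin N) :
    FF adj x y k l = FF adj y x k l := by
  unfold FF
  exact if_congr and_comm rfl rfl

theorem FF_low (adj : V → V → Prop) (x y : V) (k : ℕ) :
    Low k (FF adj x y k : (V → Fin K → Fin N) → ℝ) := by
  intro l l' h
  unfold FF
  rw [alive_congr adj h x, alive_congr adj h y]

theorem FF_anti (adj : V → V → Prop) (x y : V) {k k' : ℕ} (h : k ≤ k')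
    (l : V → Fin K → Fin N) : FF adj x y k' l ≤ FF adj x y k l := by
  unfold FF
  split_ifs with h1 h2
  · exact le_rfl
  · exact absurd ⟨alive_mono adj l h h1.1, alive_mono adj l h h1.2⟩ h2
  · norm_num
  · exact le_rfl

/-- the union of the neighbourhoods -/
noncomputable def SS (adj : V → V → Prop) (x y : V) : Finset V := nb adj x ∪ nb adj y

theorem mem_SS {adj : V → V → Prop} {x y z : V} : z ∈ SS adj x y ↔ adj x z ∨ adj y z := by
  simp [SS, nb]

/-- loss of the process in one step -/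
theorem step_A (adj : V → V → Prop) (hsym : ∀ x y, adj x y → adj y x) (Δ : ℕ) (hN : 0 < N)
    (hdeg : ∀ v, (nb adj v).card ≤ Δ) {x y : V} (hxy : adj x y) (k : Fin K) :
    ex (FF adj x y (k : ℕ) : (V → Fin K → Fin N) → ℝ) -
        ex (FF adj x y ((k : ℕ) + 1) : (V → Fin K → Fin N) → ℝ) ≤
      (1 / N) * ex (fun l : V → Fin K → Fin N => FF adj x y (k : ℕ) l *
        (((Δ : ℝ) - (hd adj l (k : ℕ) x).card) + ((Δ : ℝ) - (hd adj l (k : ℕ) y).card))) := by
  rw [← ex_sub]
  have h1 : ∀ l : V → Fin K → Fin N, FF adj x y (k : ℕ) l - FF adj x y ((k : ℕ) + 1) l ≤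
      ∑ z ∈ SS adj x y, (FF adj x y (k : ℕ) l * (if alive adj l (k : ℕ) z then (1 : ℝ) else 0)) *
        (if rings l (k : ℕ) z then (1 : ℝ) else 0) := by
    intro l
    have hnn : ∀ z ∈ SS adj x y, 0 ≤ (FF adj x y (k : ℕ) l *
        (if alive adj l (k : ℕ) z then (1 : ℝ) else 0)) *
        (if rings l (k : ℕ) z then (1 : ℝ) else 0) := by
      intro z _
      have := FF_nonneg adj x y (k : ℕ) l
      split_ifs <;> simp [this]
    by_cases h2 : alive adj l (k : ℕ) x ∧ alive adj l (k : ℕ) y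
    · have e1 : FF adj x y (k : ℕ) l = 1 := by
        unfold FF
        rw [if_pos h2]
      by_cases h3 : alive adj l ((k : ℕ) + 1) x ∧ alive adj l ((k : ℕ) + 1) y
      · have e2 : FF adj x y ((k : ℕ) + 1) l = 1 := by
          unfold FF
          rw [if_pos h3]
        rw [e1, e2, sub_self]
        rw [e1] at hnn
        exact sum_nonneg hnn
      · have e2 : FF adj x y ((k : ℕ) + 1) l = 0 := by
          unfold FF
          rw [if_neg h3]
        have h4 : ∃ z ∈ SS adj x y, alive adj l (k : ℕ) z ∧ rings l (k : ℕ) z := by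
          by_contra h5
          push Not at h5
          apply h3
          constructor
          · refine ⟨h2.1, fun z hz hz2 => h5 z ?_ hz2⟩
            rw [mem_SS]
            rcases hz with hz | hz
            · right; rw [hz]; exact hsym _ _ hxy
            · left; exact hz
          · refine ⟨h2.2, fun z hz hz2 => h5 z ?_ hz2⟩
            rw [mem_SS]
            rcases hz with hz | hz
            · left; rw [hz]; exact hxy
            · right; exact hz
        obtain ⟨z, hz, hz2, hz3⟩ := h4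
        have h6 := single_le_sum hnn hz
        rw [e2, sub_zero]
        refine le_trans ?_ h6
        rw [e1, if_pos hz2, if_pos hz3]
        norm_num
    · have e1 : FF adj x y (k : ℕ) l = 0 := by
        unfold FF
        rw [if_neg h2]
      have e2 := FF_nonneg adj x y ((k : ℕ) + 1) l
      have e3 := sum_nonneg hnn
      rw [e1] at e3 ⊢
      linarith
  refine (ex_mono h1).trans ?_
  rw [ex_sum]
  have h2 : ∀ z ∈ SS adj x y, ex (fun l : V → Fin K → Fin N =>
      (FF adj x y (k : ℕ) l * (if alive adj l (k : ℕ) z then (1 : ℝ) else 0)) *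
        (if rings l (k : ℕ) z then (1 : ℝ) else 0)) =
      (1 / N) * ex (fun l : V → Fin K → Fin N =>
        FF adj x y (k : ℕ) l * (if alive adj l (k : ℕ) z then (1 : ℝ) else 0)) := by
    intro z _
    apply ring_one hN
    intro l c
    apply Low.upd (f := fun l => FF adj x y (k : ℕ) l *
      (if alive adj l (k : ℕ) z then (1 : ℝ) else 0))
    intro l l' h
    simp only
    rw [FF_low adj x y (k : ℕ) l l' h]
    congr 1
    exact if_congr (alive_congr adj h z) rfl rfl
  rw [sum_congr rfl h2, ← mul_sum, ← ex_sum]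
  apply mul_le_mul_of_nonneg_left _ (by positivity)
  apply ex_mono
  intro l
  rw [← mul_sum]
  apply mul_le_mul_of_nonneg_left _ (FF_nonneg adj x y (k : ℕ) l)
  have h3 : ∑ z ∈ SS adj x y, (if alive adj l (k : ℕ) z then (1 : ℝ) else 0) =
      (((SS adj x y).filter (fun z => alive adj l (k : ℕ) z)).card : ℝ) := by
    rw [card_filter]
    push_cast
    rfl
  rw [h3]
  have h4 : ((SS adj x y).filter (fun z => alive adj l (k : ℕ) z)).card ≤
      ((nb adj x).filter (fun z => alive adj l (k : ℕ) z)).card +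
      ((nb adj y).filter (fun z => alive adj l (k : ℕ) z)).card := by
    unfold SS
    rw [filter_union]
    exact card_union_le _ _
  have h5 := card_alive_add_hd adj l hsym (k : ℕ) x
  have h6 := card_alive_add_hd adj l hsym (k : ℕ) y
  have h7 := hdeg x
  have h8 := hdeg y
  have h9 : ((SS adj x y).filter (fun z => alive adj l (k : ℕ) z)).card +
      (hd adj l (k : ℕ) x).card + (hd adj l (k : ℕ) y).card ≤ Δ + Δ := by omega
  have h10 : (((SS adj x y).filter (fun z => alive adj l (k : ℕ) z)).card : ℝ) +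
      (hd adj l (k : ℕ) x).card + (hd adj l (k : ℕ) y).card ≤ Δ + Δ := by exact_mod_cast h9
  linarith

/-- gain of the process in one step -/
theorem step_B (adj : V → V → Prop) (Δ : ℕ) (hN : 0 < N)
    (hdeg : ∀ v, (nb adj v).card ≤ Δ) {x y : V} (hxy : adj x y) (k : Fin K)
    (f : (V → Fin K → Fin N) → ℝ) (hf0 : ∀ l, 0 ≤ f l) (hf : Low (k : ℕ) f) :
    (1 / N) * (1 - 2 * Δ / N) * ex (fun l => FF adj x y (k : ℕ) l * f l) ≤
      ex (fun l => if arc adj l (k : ℕ) x y then f l else 0) := by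
  set S := (SS adj x y).erase x with hS
  have hSc : (S.card : ℝ) ≤ 2 * Δ := by
    have h1 : S.card ≤ (SS adj x y).card := card_le_card (erase_subset _ _)
    have h2 : (SS adj x y).card ≤ (nb adj x).card + (nb adj y).card := card_union_le _ _
    have h3 := hdeg x
    have h4 := hdeg y
    have h5 : S.card ≤ 2 * Δ := by omega
    exact_mod_cast h5
  have hg : Low (k : ℕ) (fun l => FF adj x y (k : ℕ) l * f l) := by
    intro l l' h
    simp only
    rw [FF_low adj x y (k : ℕ) l l' h, hf l l' h]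
  have hg0 : ∀ l, 0 ≤ FF adj x y (k : ℕ) l * f l := fun l =>
    mul_nonneg (FF_nonneg adj x y _ l) (hf0 l)
  have h1 : ∀ l, (FF adj x y (k : ℕ) l * f l) * (if rings l (k : ℕ) x then (1 : ℝ) else 0) -
      ∑ z ∈ S, ((FF adj x y (k : ℕ) l * f l) * (if rings l (k : ℕ) x then (1 : ℝ) else 0)) *
        (if rings l (k : ℕ) z then (1 : ℝ) else 0) ≤
      (if arc adj l (k : ℕ) x y then f l else 0) := by
    intro l
    have hnn : ∀ z ∈ S, 0 ≤ ((FF adj x y (k : ℕ) l * f l) *
        (if rings l (k : ℕ) x then (1 : ℝ) else 0)) *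
        (if rings l (k : ℕ) z then (1 : ℝ) else 0) := by
      intro z _
      have := hg0 l
      split_ifs <;> simp [this]
    by_cases h2 : arc adj l (k : ℕ) x y
    · rw [if_pos h2]
      have h3 := sum_nonneg hnn
      have h4 : (FF adj x y (k : ℕ) l * f l) * (if rings l (k : ℕ) x then (1 : ℝ) else 0) ≤
          f l := by
        have h5 : FF adj x y (k : ℕ) l = 1 := by
          unfold FF
          rw [if_pos ⟨h2.2.1, h2.2.2.1⟩]
        rw [h5, if_pos h2.2.2.2.1]
        linarith
      linarith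
    · rw [if_neg h2]
      by_cases h3 : (alive adj l (k : ℕ) x ∧ alive adj l (k : ℕ) y) ∧ rings l (k : ℕ) x
      · have h4 : ∃ w ∈ S, rings l (k : ℕ) w := by
          by_contra h5
          push Not at h5
          apply h2
          refine ⟨hxy, h3.1.1, h3.1.2, h3.2, fun w hw hw2 => h5 w ?_⟩
          rw [hS, mem_erase, mem_SS]
          exact ⟨hw, hw2⟩
        obtain ⟨w, hw, hw2⟩ := h4
        have h6 := single_le_sum hnn hw
        rw [if_pos hw2, mul_one] at h6
        linarith
      · have h4 : (FF adj x y (k : ℕ) l * f l) *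
            (if rings l (k : ℕ) x then (1 : ℝ) else 0) = 0 := by
          by_cases h5 : alive adj l (k : ℕ) x ∧ alive adj l (k : ℕ) y
          · have h6 : ¬ rings l (k : ℕ) x := fun h7 => h3 ⟨h5, h7⟩
            rw [if_neg h6, mul_zero]
          · unfold FF
            rw [if_neg h5]
            simp
        have h5 := sum_nonneg hnn
        linarith
  refine le_trans ?_ (ex_mono h1)
  rw [ex_sub, ex_sum]
  have h2 : ex (fun l => (FF adj x y (k : ℕ) l * f l) *
      (if rings l (k : ℕ) x then (1 : ℝ) else 0)) =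
      (1 / N) * ex (fun l => FF adj x y (k : ℕ) l * f l) :=
    ring_one hN x k _ (fun l c => hg.upd l x c)
  have h3 : ∀ z ∈ S, ex (fun l => ((FF adj x y (k : ℕ) l * f l) *
      (if rings l (k : ℕ) x then (1 : ℝ) else 0)) *
      (if rings l (k : ℕ) z then (1 : ℝ) else 0)) =
      (1 / N) * ((1 / N) * ex (fun l => FF adj x y (k : ℕ) l * f l)) := by
    intro z hz
    rw [← h2]
    apply ring_one hN z k
    intro l c
    have hzx : z ≠ x := (mem_erase.mp hz).1
    have e1 : rings (upd l z k c) (k : ℕ) x ↔ rings l (k : ℕ) x := by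
      rw [rings_iff _ hN, rings_iff _ hN, upd_ne _ _ _ _ _ _ (Or.inl hzx.symm)]
    have e2 := hg.upd l z c
    rw [e2]
    congr 1
    exact if_congr e1 rfl rfl
  rw [h2, sum_congr rfl h3, sum_const, nsmul_eq_mul]
  set X := ex (fun l => FF adj x y (k : ℕ) l * f l) with hX
  have hX0 : 0 ≤ X := ex_nonneg hg0
  have hN' : (0 : ℝ) < N := by exact_mod_cast hN
  have h4 : (S.card : ℝ) * (1 / N * (1 / N * X)) ≤ 2 * Δ * (1 / N * (1 / N * X)) :=
    mul_le_mul_of_nonneg_right hSc (by positivity)
  have h5 : 1 / (N : ℝ) * (1 - 2 * Δ / N) * X = 1 / N * X - 2 * Δ * (1 / N * (1 / N * X)) := by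
    field_simp
  rw [h5]
  linarith

end Gain

theorem gain {V : Type} [Fintype V] (adj : V → V → Prop) (hsym : ∀ x y, adj x y → adj y x)
    (Δ H K m m' : ℕ) (hΔ : 0 < Δ) (hH : 0 < H)
    (hdeg : ∀ v, (nb adj v).card ≤ Δ) (hm : m * H ≤ 2 * m' * K) {x y : V} (hxy : adj x y) :
    (1 - 2 / (H : ℝ)) * (m / Δ) ≤ ∑ k ∈ range K,
      (ex (fun l : V → Fin K → Fin (H * Δ) =>
          if arc adj l k x y then (m * (1 - (hd adj l k y).card / Δ) + m' : ℝ) else 0) +
        ex (fun l : V → Fin K → Fin (H * Δ) =>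
          if arc adj l k y x then (m * (1 - (hd adj l k x).card / Δ) + m' : ℝ) else 0)) := by
  have hN : 0 < H * Δ := Nat.mul_pos hH hΔ
  have hΔ' : (0 : ℝ) < Δ := by exact_mod_cast hΔ
  have hH' : (0 : ℝ) < H := by exact_mod_cast hH
  -- bounds for the number of heads
  have hh : ∀ (l : V → Fin K → Fin (H * Δ)) (k : ℕ) (v : V), ((hd adj l k v).card : ℝ) ≤ Δ := by
    intro l k v
    have h1 := card_alive_add_hd adj l hsym k v
    have h2 := hdeg v
    have h3 : (hd adj l k v).card ≤ Δ := by omega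
    exact_mod_cast h3
  have hf0 : ∀ (v : V) (k : ℕ) (l : V → Fin K → Fin (H * Δ)),
      (0 : ℝ) ≤ m * (1 - (hd adj l k v).card / Δ) + m' := by
    intro v k l
    have h1 : ((hd adj l k v).card : ℝ) / Δ ≤ 1 := by
      rw [div_le_one hΔ']
      exact hh l k v
    have h2 : (0 : ℝ) ≤ m * (1 - (hd adj l k v).card / Δ) :=
      mul_nonneg (by positivity) (by linarith)
    positivity
  have hflow : ∀ (v : V) (k : ℕ), Gain.Low k (fun l : V → Fin K → Fin (H * Δ) =>
      (m * (1 - (hd adj l k v).card / Δ) + m' : ℝ)) := by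
    intro v k l l' h
    simp only
    rw [Gain.hd_congr adj h v]
  have hT0 : ∀ k ∈ range K, (0 : ℝ) ≤ (ex (fun l : V → Fin K → Fin (H * Δ) =>
          if arc adj l k x y then (m * (1 - (hd adj l k y).card / Δ) + m' : ℝ) else 0) +
        ex (fun l : V → Fin K → Fin (H * Δ) =>
          if arc adj l k y x then (m * (1 - (hd adj l k x).card / Δ) + m' : ℝ) else 0)) := by
    intro k _
    apply add_nonneg
    · apply Gain.ex_nonneg
      intro l
      split_ifs
      · exact hf0 y k l
      · exact le_rfl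
    · apply Gain.ex_nonneg
      intro l
      split_ifs
      · exact hf0 x k l
      · exact le_rfl
  rcases lt_or_ge (1 - 2 / (H : ℝ)) 0 with hneg | hpos
  · refine le_trans ?_ (sum_nonneg hT0)
    exact mul_nonpos_of_nonpos_of_nonneg hneg.le (by positivity)
  set F : ℕ → ℝ := fun k => ex (Gain.FF adj x y k : (V → Fin K → Fin (H * Δ)) → ℝ) with hF
  have hFK : ∀ k ≤ K, F K ≤ F k := fun k hk =>
    Gain.ex_mono fun l => Gain.FF_anti adj x y hk l
  have hF0 : F 0 = 1 := by
    have : Nonempty (Fin (H * Δ)) := ⟨⟨0, hN⟩⟩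
    have hcard : (0 : ℝ) < Fintype.card (V → Fin K → Fin (H * Δ)) := by
      exact_mod_cast Fintype.card_pos
    simp only [hF, ex, Gain.FF, alive, and_self, if_true, sum_const, card_univ, nsmul_eq_mul,
      mul_one]
    exact div_self hcard.ne'
  have hFKn : 0 ≤ F K := Gain.ex_nonneg fun l => Gain.FF_nonneg adj x y K l
  have hN' : (0 : ℝ) < ((H * Δ : ℕ) : ℝ) := by exact_mod_cast hN
  have hNe : ((H * Δ : ℕ) : ℝ) = H * Δ := by push_cast; ring
  have hstep : ∀ k ∈ range K, (1 - 2 / (H : ℝ)) * ((m / Δ) * (F k - F (k + 1)) +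
      2 * m' / (H * Δ) * F K) ≤ (ex (fun l : V → Fin K → Fin (H * Δ) =>
          if arc adj l k x y then (m * (1 - (hd adj l k y).card / Δ) + m' : ℝ) else 0) +
        ex (fun l : V → Fin K → Fin (H * Δ) =>
          if arc adj l k y x then (m * (1 - (hd adj l k x).card / Δ) + m' : ℝ) else 0)) := by
    intro k hk
    rw [mem_range] at hk
    have hA := Gain.step_A adj hsym Δ hN hdeg hxy (⟨k, hk⟩ : Fin K)
    have hB1 := Gain.step_B adj Δ hN hdeg hxy (⟨k, hk⟩ : Fin K) _ (hf0 y k) (hflow y k)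
    have hB2 := Gain.step_B adj Δ hN hdeg (hsym _ _ hxy) (⟨k, hk⟩ : Fin K) _ (hf0 x k)
      (hflow x k)
    simp only at hA hB1 hB2
    have hcomm : (fun l : V → Fin K → Fin (H * Δ) => Gain.FF adj y x k l *
        (m * (1 - (hd adj l k x).card / Δ) + m' : ℝ)) =
        (fun l : V → Fin K → Fin (H * Δ) => Gain.FF adj x y k l *
        (m * (1 - (hd adj l k x).card / Δ) + m' : ℝ)) := by
      funext l
      rw [Gain.FF_comm]
    rw [hcomm] at hB2
    refine le_trans ?_ (add_le_add hB1 hB2)
    rw [← mul_add, ← Gain.ex_add]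
    have e1 : (fun l : V → Fin K → Fin (H * Δ) => Gain.FF adj x y k l *
        (m * (1 - (hd adj l k y).card / Δ) + m' : ℝ) + Gain.FF adj x y k l *
        (m * (1 - (hd adj l k x).card / Δ) + m' : ℝ)) =
        (fun l : V → Fin K → Fin (H * Δ) => (m / Δ : ℝ) * (Gain.FF adj x y k l *
        (((Δ : ℝ) - (hd adj l k x).card) + ((Δ : ℝ) - (hd adj l k y).card))) +
          (2 * m' : ℝ) * Gain.FF adj x y k l) := by
      funext l
      field_simp
      ring
    rw [e1, Gain.ex_add, Gain.ex_mul, Gain.ex_mul]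
    set X := ex (fun l : V → Fin K → Fin (H * Δ) => Gain.FF adj x y k l *
        (((Δ : ℝ) - (hd adj l k x).card) + ((Δ : ℝ) - (hd adj l k y).card))) with hX
    have e2 : ex (fun l : V → Fin K → Fin (H * Δ) => Gain.FF adj x y k l) = F k := rfl
    rw [e2]
    have e3 : (1 / ((H * Δ : ℕ) : ℝ)) * (1 - 2 * Δ / ((H * Δ : ℕ) : ℝ)) *
        ((m / Δ : ℝ) * X + 2 * m' * F k) =
        (1 - 2 / (H : ℝ)) * ((m / Δ) * (1 / ((H * Δ : ℕ) : ℝ) * X) +
          2 * m' / (H * Δ) * F k) := by
      rw [hNe]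
      field_simp
    rw [e3]
    apply mul_le_mul_of_nonneg_left _ hpos
    have e4 : (F k - F (k + 1)) ≤ 1 / ((H * Δ : ℕ) : ℝ) * X := hA
    have e5 := hFK k hk.le
    apply add_le_add
    · exact mul_le_mul_of_nonneg_left e4 (by positivity)
    · exact mul_le_mul_of_nonneg_left e5 (by positivity)
  refine le_trans ?_ (sum_le_sum hstep)
  rw [← mul_sum, sum_add_distrib, ← mul_sum, sum_range_sub', sum_const, card_range,
    nsmul_eq_mul, hF0]
  apply mul_le_mul_of_nonneg_left _ hpos
  have h1 : (m : ℝ) / Δ ≤ K * (2 * m' / (H * Δ)) := by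
    have h2 : (m : ℝ) * H ≤ 2 * m' * K := by exact_mod_cast hm
    rw [div_le_iff₀ hΔ']
    have h3 : (K : ℝ) * (2 * m' / (H * Δ)) * Δ = (2 * m' * K) / H := by
      field_simp
    rw [h3, le_div_iff₀ hH']
    exact h2
  have h4 : (m : ℝ) / Δ * F K ≤ (K * (2 * m' / (H * Δ))) * F K :=
    mul_le_mul_of_nonneg_right h1 hFKn
  linarith

end Pool.Agent.SG
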