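import Pool.Agent.Helper66.SG.Cover
import Pool.Agent.Helper66.SG.ClsCov
import Pool.Agent.Helper66.SG.ClsPair
import Pool.Agent.Helper66.SG.ClsLoc

/-!
# M12: the family of random classes
-/

set_option autoImplicit false

namespace Pool.Agent.SG

open Finset Pool.Agent.SEC
open scoped Classical

theorem scheme_fam {V : Type} [Fintype V] (adj : V → V → Prop) (hsym : ∀ x y, adj x y → adj y x)
    (hirr : ∀ x, ¬ adj x x) (Δ H K m m' g : ℕ) (hΔ : 0 < Δ) (hH : 0 < H) (hm0 : 0 < m)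
    (hg : 0 < g) (hdeg : ∀ v, (nb adj v).card ≤ Δ) (hm : m * H ≤ 2 * m' * K)
    (U : Finset (Sym2 V)) (hUe : ∀ x y, s(x, y) ∈ U → adj x y)
    (D a δ : ℝ) (hD : 0 < D) (ha : 0 ≤ a) (hδ : 0 ≤ δ)
    (hU : Good (test adj K (H * Δ)) Δ D a δ U) (α : ℕ) (hα : α = ⌊D + a⌋₊)
    (b : Fin (m + m') → ℕ) (hb : ∀ t, b t = ⌊min (((t : ℕ) + 1 : ℝ) / m) 1 * D + a⌋₊) :
    Nonempty (Fam (Conf adj) (eball adj (6 * K + 12)) U
      ((1 - 2 / (H : ℝ)) * (m / Δ) - (m + m') * (2 * (K + 1) * δ) -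
        (m + m') * (2 * K * (Δ : ℝ) ^ 2 / (((H * Δ : ℕ) : ℝ) ^ 2 * g)))
      (4 * ((K : ℝ) / ((H * Δ : ℕ) : ℝ)) ^ 2 / D)
      (Σ t : Fin (m + m'), Fin (α + b t + g))) := by
  have hN : 0 < H * Δ := Nat.mul_pos hH hΔ
  have hNe : Nonempty (Fin (H * Δ)) := ⟨⟨0, hN⟩⟩
  obtain ⟨idx, hidx, hidc⟩ : ∃ idx : V → ℕ, Function.Injective idx ∧
      ∀ v, idx v < Fintype.card V :=
    ⟨fun v => (Fintype.equivFin V v : ℕ), fun a b h => (Fintype.equivFin V).injective (Fin.ext h),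
      fun v => (Fintype.equivFin V v).2⟩
  refine ⟨{
    A := fun j => (Fin K → Fin (H * Δ)) × Equiv.Perm (Fin (α + b j.1 + g))
    fin := fun j => inferInstance
    ne := fun j => inferInstance
    M := fun j ω => cls adj U α (b j.1) idx (⟨0, by omega⟩ : Fin (α + b j.1 + g)) ω
    ind := ?_
    loc := ?_
    cov := ?_
    pair := ?_ }⟩
  · intro j ω e he e' he' hne
    exact cls_ind adj hsym hirr idx hidx hidc U α (b j.1) _ (by omega) ω e e' he he' hne
  · intro j e ω ω' h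
    exact cls_loc adj hsym hirr idx hidx hidc U α (b j.1) K (H * Δ) _ _ e ω ω' h
  · intro e he
    induction e using Sym2.ind with
    | _ x y =>
    have hxy := hUe x y he
    rw [Fintype.sum_sigma]
    have h1 : ∀ t : Fin (m + m'),
        pr (fun l : V → Fin K → Fin (H * Δ) => (x, y) ∈ used adj l U α (b t) ∨
          (y, x) ∈ used adj l U α (b t)) -
          2 * K * (Δ : ℝ) ^ 2 / (((H * Δ : ℕ) : ℝ) ^ 2 * g) ≤
        ∑ i : Fin (α + b t + g), pr (fun ω : V → (Fin K → Fin (H * Δ)) ×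
          Equiv.Perm (Fin (α + b t + g)) => s(x, y) ∈ cls adj U α (b t) idx
            (⟨0, by omega⟩ : Fin (α + b t + g)) ω) := by
      intro t
      rw [sum_const, card_univ, Fintype.card_fin, nsmul_eq_mul]
      exact cls_cov adj hsym hirr idx hidx hidc U α (b t) g hg Δ K (H * Δ) _ hN _ rfl hdeg hxy
    refine le_trans ?_ (sum_le_sum fun t _ => h1 t)
    rw [sum_sub_distrib, sum_const, card_univ, Fintype.card_fin, nsmul_eq_mul]
    have h2 := cover adj hsym hirr Δ H K m m' hΔ hH hm0 hdeg hm U D a δ hD.le ha hδ hU α hα b hb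
      hxy he
    push_cast at h2 ⊢
    linarith
  · intro e he e' he' hne j
    have h1 := cls_pair adj hsym hirr idx hidx hidc U α (b j.1) K (H * Δ) (α + b j.1 + g) hN
      (⟨0, by omega⟩ : Fin (α + b j.1 + g)) (by omega) e e' hne
    refine h1.trans ?_
    apply div_le_div_of_nonneg_left (by positivity) hD
    have h2 := Nat.lt_floor_add_one (D + a)
    have h5 : (α : ℝ) = (⌊D + a⌋₊ : ℝ) := congrArg Nat.cast hα
    have h3 : (1 : ℝ) ≤ g := by exact_mod_cast hg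
    have h4 : (0 : ℝ) ≤ (b j.1 : ℝ) := Nat.cast_nonneg _
    push_cast
    linarith

end Pool.Agent.SG
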