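import Pool.Agent.Helper66.SG.Defs

set_option autoImplicit false

namespace Pool.Agent.SG

open Finset Pool.Agent.SEC
open scoped Classical

/-! ### M13: the numbers of the family -/

namespace SNumAux

theorem sum_min (m : ℕ) (hm : 0 < m) (u D : ℝ) (hD : 0 ≤ D) :
    (∑ t : Fin (m + 1), (u + min (((t : ℕ) + 1 : ℝ) / m) 1 * D)) ≤
      (m + 1) * u + (((m : ℝ) + 1) / 2 + 1) * D := by
  have hm0 : (0 : ℝ) < (m : ℝ) := by exact_mod_cast hm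
  rw [Fin.sum_univ_eq_sum_range (fun t : ℕ => u + min (((t : ℕ) + 1 : ℝ) / m) 1 * D) (m + 1),
    sum_range_succ]
  have h1 : ∑ t ∈ range m, (u + min (((t : ℕ) + 1 : ℝ) / m) 1 * D) ≤
      ∑ t ∈ range m, (u + ((t : ℝ) + 1) / m * D) := by
    apply sum_le_sum
    intro t _
    have := mul_le_mul_of_nonneg_right (min_le_left (((t : ℕ) + 1 : ℝ) / m) 1) hD
    linarith
  have h2 : ∑ t ∈ range m, (u + ((t : ℝ) + 1) / m * D) = m * u + (((m : ℝ) + 1) / 2) * D := by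
    have h3 : ∀ k : ℕ, ∑ t ∈ range k, (u + ((t : ℝ) + 1) / m * D) =
        k * u + ((k : ℝ) * ((k : ℝ) + 1) / (2 * m)) * D := by
      intro k
      induction k with
      | zero => simp
      | succ k ih =>
        rw [sum_range_succ, ih]
        push_cast
        field_simp
        ring
    rw [h3]
    field_simp
  have h4 : min (((m : ℕ) + 1 : ℝ) / m) 1 * D ≤ 1 * D :=
    mul_le_mul_of_nonneg_right (min_le_right _ _) hD
  linarith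

end SNumAux

theorem scheme_numbers (ε' : ℝ) (hε' : 0 < ε') : ∃ (m m' H K : ℕ) (η : ℝ) (C Δ₁ : ℕ),
    0 < m ∧ 0 < H ∧ 0 < η ∧ m * H ≤ 2 * m' * K ∧ 0 < Δ₁ ∧
    ∀ Δ : ℕ, Δ₁ ≤ Δ → ∀ D a δ : ℝ, ε' * Δ ≤ D → D ≤ Δ → 0 ≤ a → a ≤ η * Δ → 0 ≤ δ →
      δ ≤ 1 / (Δ : ℝ) ^ 2 → ∃ (g : ℕ) (p : ℝ), 0 < g ∧
      p = (1 - 2 / (H : ℝ)) * (m / Δ) - (m + m') * (2 * (K + 1) * δ) -
        (m + m') * (2 * K * (Δ : ℝ) ^ 2 / (((H * Δ : ℕ) : ℝ) ^ 2 * g)) ∧ 0 < p ∧ p * Δ ≤ C ∧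
      4 * ((K : ℝ) / ((H * Δ : ℕ) : ℝ)) ^ 2 / D * ((Δ : ℝ) ^ 2 * D) ≤ C ∧
      (∑ t : Fin (m + m'), ((D + a) + (min (((t : ℕ) + 1 : ℝ) / m) 1 * D + a) + g)) ≤
        (3 / 2 + ε') * D * Δ * p := by
  obtain ⟨n, hn⟩ : ∃ n : ℕ, 1 / ε' ≤ n := exists_nat_ge _
  obtain ⟨n, hn0, hn⟩ : ∃ n : ℕ, 0 < n ∧ 1 ≤ ε' * n := by
    refine ⟨n + 1, Nat.succ_pos n, ?_⟩
    rw [div_le_iff₀ hε'] at hn
    push_cast
    nlinarith
  have hnR : (1 : ℝ) ≤ (n : ℝ) := by exact_mod_cast hn0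
  obtain ⟨H, hH⟩ : ∃ H : ℕ, 65 * 64 * 32 * (n : ℝ) ^ 3 / ε' + 128 * n + 1 ≤ H := exists_nat_ge _
  have hq0 : 0 ≤ 65 * 64 * 32 * (n : ℝ) ^ 3 / ε' := by positivity
  have hHR1 : 65 * 64 * 32 * (n : ℝ) ^ 3 / ε' ≤ (H : ℝ) := by linarith
  have hHR2 : 128 * (n : ℝ) ≤ (H : ℝ) := by linarith
  have hHR : (0 : ℝ) < (H : ℝ) := by linarith
  have hH0 : 0 < H := by exact_mod_cast hHR
  obtain ⟨Δ₁, hΔ₁⟩ : ∃ Δ₁ : ℕ, 65 * (n : ℝ) / ε' + 2 * (64 * n + 1) * (32 * n * H + 1) + 1 ≤ Δ₁ :=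
    exists_nat_ge _
  have hq1 : 0 ≤ 65 * (n : ℝ) / ε' := by positivity
  have hq2 : 0 ≤ 2 * (64 * (n : ℝ) + 1) * (32 * n * H + 1) := by positivity
  have hΔ₁R : (0 : ℝ) < (Δ₁ : ℝ) := by linarith
  refine ⟨64 * n, 1, H, 32 * n * H, ε' / (130 * n), 4096 * n ^ 2 + 64 * n, Δ₁, by positivity, hH0,
    by positivity, by rw [show 64 * n * H = 2 * 1 * (32 * n * H) by ring],
    by exact_mod_cast hΔ₁R, ?_⟩
  intro Δ hΔ D a δ hD1 hD2 ha0 ha1 hδ0 hδ1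
  have hΔR1 : (Δ₁ : ℝ) ≤ (Δ : ℝ) := by exact_mod_cast hΔ
  have hΔR : (0 : ℝ) < (Δ : ℝ) := by linarith
  have hDpos : 0 < D := lt_of_lt_of_le (by positivity) hD1
  have hD65 : 65 * (n : ℝ) ≤ D := by
    have h1 : 65 * (n : ℝ) / ε' ≤ Δ := by linarith
    rw [div_le_iff₀ hε'] at h1
    linarith
  obtain ⟨g, hg⟩ : ∃ g : ℕ, g = ⌈D / (32 * n)⌉₊ := ⟨_, rfl⟩
  have hg1 : D / (32 * n) ≤ (g : ℝ) := by rw [hg]; exact Nat.le_ceil _
  have hg2 : (g : ℝ) ≤ D / (32 * n) + 1 := by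
    rw [hg]; exact (Nat.ceil_lt_add_one (by positivity)).le
  have hgR : (0 : ℝ) < (g : ℝ) := lt_of_lt_of_le (by positivity) hg1
  have hg0 : 0 < g := by exact_mod_cast hgR
  obtain ⟨p, hp⟩ : ∃ p : ℝ, p = (1 - 2 / (H : ℝ)) * ((64 * n : ℕ) / Δ) -
      ((64 * n : ℕ) + (1 : ℕ)) * (2 * ((32 * n * H : ℕ) + 1) * δ) -
        ((64 * n : ℕ) + (1 : ℕ)) *
          (2 * (32 * n * H : ℕ) * (Δ : ℝ) ^ 2 / (((H * Δ : ℕ) : ℝ) ^ 2 * g)) := ⟨_, rfl⟩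
  have hpΔ : p * Δ = (1 - 2 / (H : ℝ)) * (64 * n) -
      (64 * n + 1) * (2 * (32 * n * H + 1) * (δ * Δ)) -
        (64 * n + 1) * (64 * n * Δ / (H * g)) := by
    rw [hp]
    push_cast
    field_simp
    ring
  have t1 : 2 / (H : ℝ) * (64 * n) ≤ 1 := by
    rw [div_mul_eq_mul_div, div_le_one hHR]
    linarith
  have t1' : 0 ≤ 2 / (H : ℝ) * (64 * n) := by positivity
  have t2 : (64 * (n : ℝ) + 1) * (2 * (32 * n * H + 1) * (δ * Δ)) ≤ 1 := by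
    have h1 : δ * Δ ≤ 1 / Δ := by
      calc δ * Δ ≤ 1 / (Δ : ℝ) ^ 2 * Δ := mul_le_mul_of_nonneg_right hδ1 hΔR.le
        _ = 1 / Δ := by field_simp
    have h2 : 2 * (64 * (n : ℝ) + 1) * (32 * n * H + 1) ≤ Δ := by linarith
    calc (64 * (n : ℝ) + 1) * (2 * (32 * n * H + 1) * (δ * Δ))
        = 2 * (64 * (n : ℝ) + 1) * (32 * n * H + 1) * (δ * Δ) := by ring
      _ ≤ 2 * (64 * (n : ℝ) + 1) * (32 * n * H + 1) * (1 / Δ) :=
          mul_le_mul_of_nonneg_left h1 hq2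
      _ ≤ Δ * (1 / Δ) := mul_le_mul_of_nonneg_right h2 (by positivity)
      _ = 1 := by field_simp
  have t2' : 0 ≤ (64 * (n : ℝ) + 1) * (2 * (32 * n * H + 1) * (δ * Δ)) := by positivity
  have t3 : (64 * (n : ℝ) + 1) * (64 * n * Δ / (H * g)) ≤ 1 := by
    have h1 : ε' * Δ / (32 * n) ≤ (g : ℝ) :=
      (div_le_div_of_nonneg_right hD1 (by positivity)).trans hg1
    have h2 : 65 * 64 * 32 * (n : ℝ) ^ 3 ≤ H * ε' := by
      rwa [div_le_iff₀ hε'] at hHR1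
    have h3 : 65 * 64 * (n : ℝ) ^ 2 * Δ ≤ H * g := by
      have h4 : 65 * 64 * (n : ℝ) ^ 2 * Δ ≤ H * (ε' * Δ / (32 * n)) := by
        rw [mul_div_assoc', le_div_iff₀ (by positivity)]
        have h5 := mul_le_mul_of_nonneg_right h2 hΔR.le
        calc 65 * 64 * (n : ℝ) ^ 2 * Δ * (32 * n) = 65 * 64 * 32 * (n : ℝ) ^ 3 * Δ := by ring
          _ ≤ H * ε' * Δ := h5
          _ = _ := by ring
      exact h4.trans (mul_le_mul_of_nonneg_left h1 hHR.le)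
    rw [mul_div_assoc', div_le_one (by positivity)]
    have h6 : (64 * (n : ℝ) + 1) ≤ 65 * n := by linarith
    calc (64 * (n : ℝ) + 1) * (64 * n * Δ) ≤ (65 * n) * (64 * n * Δ) :=
          mul_le_mul_of_nonneg_right h6 (by positivity)
      _ = 65 * 64 * (n : ℝ) ^ 2 * Δ := by ring
      _ ≤ _ := h3
  have t3' : 0 ≤ (64 * (n : ℝ) + 1) * (64 * n * Δ / (H * g)) := by positivity
  have hlow : 64 * (n : ℝ) - 3 ≤ p * Δ := by
    rw [hpΔ]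
    linarith
  have hup : p * Δ ≤ 64 * n := by
    rw [hpΔ]
    linarith
  refine ⟨g, p, hg0, hp, ?_, ?_, ?_, ?_⟩
  · by_contra hcon
    push Not at hcon
    have := mul_nonpos_of_nonpos_of_nonneg hcon hΔR.le
    linarith
  · push_cast
    have : 0 ≤ 4096 * (n : ℝ) ^ 2 := by positivity
    linarith
  · push_cast
    have h1 : 4 * (32 * (n : ℝ) * H / (H * Δ)) ^ 2 / D * ((Δ : ℝ) ^ 2 * D) = 4096 * (n : ℝ) ^ 2 := by
      field_simp
      ring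
    rw [h1]
    linarith
  · have hs := SNumAux.sum_min (64 * n) (by positivity) (D + 2 * a + g) D hDpos.le
    have he : ∀ t : Fin (64 * n + 1),
        ((D + a) + (min (((t : ℕ) + 1 : ℝ) / (64 * n : ℕ)) 1 * D + a) + g) =
        (D + 2 * a + g) + min (((t : ℕ) + 1 : ℝ) / (64 * n : ℕ)) 1 * D := by
      intro t; ring
    rw [sum_congr rfl (fun t _ => he t)]
    refine hs.trans ?_
    push_cast
    have ha2 : 65 * n * (2 * a) ≤ D := by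
      have h1 : a ≤ ε' / (130 * n) * Δ := ha1
      calc 65 * n * (2 * a) ≤ 65 * n * (2 * (ε' / (130 * n) * Δ)) := by gcongr
        _ = ε' * Δ := by field_simp; ring
        _ ≤ D := hD1
    have hg3 : 65 * n * (g : ℝ) ≤ 65 / 32 * D + D := by
      calc 65 * n * (g : ℝ) ≤ 65 * n * (D / (32 * n) + 1) := by gcongr
        _ = 65 / 32 * D + 65 * n := by field_simp
        _ ≤ _ := by linarith
    have h64 : (64 * (n : ℝ) + 1) ≤ 65 * n := by linarith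
    have h5 : (64 * (n : ℝ) + 1) * (2 * a + g) ≤ 65 * n * (2 * a + g) :=
      mul_le_mul_of_nonneg_right h64 (by positivity)
    have h6 : (3 / 2 + ε') * D * (64 * (n : ℝ) - 3) ≤ (3 / 2 + ε') * D * (p * Δ) :=
      mul_le_mul_of_nonneg_left hlow (by positivity)
    have h7 : 61 * D ≤ ε' * D * (64 * (n : ℝ) - 3) := by
      have h8 : 61 * (ε' * n) ≤ ε' * (64 * (n : ℝ) - 3) := by
        have : 61 * (n : ℝ) ≤ 64 * n - 3 := by linarith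
        calc 61 * (ε' * n) = ε' * (61 * n) := by ring
          _ ≤ _ := mul_le_mul_of_nonneg_left this hε'.le
      have h9 : 61 ≤ ε' * (64 * (n : ℝ) - 3) := by linarith
      calc 61 * D ≤ (ε' * (64 * (n : ℝ) - 3)) * D := mul_le_mul_of_nonneg_right h9 hDpos.le
        _ = _ := by ring
    calc (64 * (n : ℝ) + 1) * (D + 2 * a + g) + ((64 * (n : ℝ) + 1) / 2 + 1) * D
        = (64 * (n : ℝ) + 1) * (2 * a + g) + (96 * n + 5 / 2) * D := by ring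
      _ ≤ 65 * n * (2 * a + g) + (96 * n + 5 / 2) * D := by linarith
      _ ≤ 3 / 2 * D * (64 * (n : ℝ) - 3) + ε' * D * (64 * (n : ℝ) - 3) := by linarith
      _ = (3 / 2 + ε') * D * (64 * (n : ℝ) - 3) := by ring
      _ ≤ (3 / 2 + ε') * D * (p * Δ) := h6
      _ = (3 / 2 + ε') * D * Δ * p := by ring

end Pool.Agent.SG
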