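import Pool.Agent.Helper66.SG.Transfer
import Pool.Agent.Helper66.SG.SFam
import Pool.Agent.Helper66.SG.SNum

set_option autoImplicit false

namespace Pool.Agent.SG

open Finset Pool.Agent.SEC
open scoped Classical

/-! ### M14: the theorem -/

theorem main_rel (ε : ℝ) (hε : 0 < ε) : ∃ Δ₀ : ℕ, ∀ (V : Type) [Fintype V] (adj : V → V → Prop)
    (Δ : ℕ), (∀ x y, adj x y → adj y x) → (∀ x, ¬ adj x x) → Δ₀ ≤ Δ →
    (∀ v, (nb adj v).card ≤ Δ) →
    ∃ c : Sym2 V → ℕ, (∀ x y, adj x y → ((c s(x, y) : ℝ) + 1) ≤ (3 / 2 + ε) * (Δ : ℝ) ^ 2) ∧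
      ∀ x y x' y', adj x y → adj x' y' → s(x, y) ≠ s(x', y') → Conf adj s(x, y) s(x', y') →
        c s(x, y) ≠ c s(x', y') := by
  obtain ⟨ε', hε', htr⟩ := transfer (3 / 2) ε (by norm_num) hε
  obtain ⟨m, m', H, K, η, C, Δ₁, hm0, hH, hη, hm, hΔ₁, hnum⟩ := scheme_numbers ε' hε'
  obtain ⟨Δ₀, hmain⟩ := htr η hη (C + (K + 2 + 4 * (6 * K + 12 + 2)))
  refine ⟨Δ₀ + Δ₁ + 2, fun V _ adj Δ hsym hirr hΔ hdeg => ?_⟩
  have hΔ0 : 0 < Δ := by omega
  obtain ⟨idx, hidx, hidc⟩ : ∃ idx : V → ℕ, Function.Injective idx ∧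
      ∀ v, idx v < Fintype.card V :=
    ⟨fun v => (Fintype.equivFin V v : ℕ), fun a b h => (Fintype.equivFin V).injective (Fin.ext h),
      fun v => (Fintype.equivFin V v).2⟩
  let E₀ : Finset (Sym2 V) := univ.filter (fun e => ∀ x y, e = s(x, y) → adj x y)
  have hcol : ∃ col : Sym2 V → ℕ, (∀ e ∈ E₀, (col e : ℝ) + 1 ≤ (3 / 2 + ε) * (Δ : ℝ) ^ 2) ∧
      ∀ e ∈ E₀, ∀ e' ∈ E₀, e ≠ e' → Conf adj e e' → col e ≠ col e' := by
    refine hmain Δ (by omega) V (Sym2 V) (V × Option (Fin (K + 1)))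
      (V → Fin K → Fin (H * Δ)) (Conf adj) (eball adj (6 * K + 12)) (test adj K (H * Δ))
      (fun i => ball adj (6 * K + 12 + 2) i.1) E₀ ?_ ?_ ?_ ?_ ?_ ?_
    · rintro e e' ⟨u, hu, v, hv, h⟩
      exact ⟨v, hv, u, hu, h.elim (fun h => Or.inl h.symm) (fun h => Or.inr (hsym _ _ h))⟩
    · intro i l e he
      exact test_sub adj hsym K (H * Δ) (6 * K + 12) i l e he
    · intro i l
      exact test_card adj hsym Δ hdeg K (H * Δ) i l
    · intro i
      refine le_trans (test_dep adj hsym K (6 * K + 12 + 2) Δ (by omega) hdeg i) ?_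
      exact Nat.pow_le_pow_right hΔ0 (by omega)
    · intro U D a δ hδ hD ha hU hgood e he
      refine test_fin adj hsym Δ K (H * Δ) hdeg U ?_ (Nat.mul_pos hH hΔ0) D a δ hδ hD ha hgood e he
      intro x y hxy
      have := hU hxy
      simp only [E₀, mem_filter, mem_univ, true_and] at this
      exact this x y rfl
    · intro U D a δ hD1 hD2 ha1 ha2 hδ1 hδ2 hU hgood
      obtain ⟨g, p, hg, hp, hp0, hpC, hqC, hcard⟩ := hnum Δ (by omega) D a δ hD1 hD2 ha1 ha2 hδ1 hδ2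
      have hD0 : 0 < D := lt_of_lt_of_le (by positivity) hD1
      have hfam := scheme_fam adj hsym hirr Δ H K m m' g hΔ0 hH hm0 hg hdeg hm U (fun x y hxy => by
        have := hU hxy
        simp only [E₀, mem_filter, mem_univ, true_and] at this
        exact this x y rfl) D a δ hD0 ha1 hδ1 hgood ⌊D + a⌋₊ rfl
        (fun t => ⌊min (((t : ℕ) + 1 : ℝ) / m) 1 * D + a⌋₊) (fun t => rfl)
      refine ⟨Σ t : Fin (m + m'), Fin (⌊D + a⌋₊ + ⌊min (((t : ℕ) + 1 : ℝ) / m) 1 * D + a⌋₊ + g),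
        inferInstance, p, 4 * ((K : ℝ) / ((H * Δ : ℕ) : ℝ)) ^ 2 / D, ?_, hp0, ?_, ?_, ?_, ?_⟩
      · rw [hp]
        exact hfam
      · push_cast
        refine hpC.trans ?_
        have : (0 : ℝ) ≤ (K + 2 + 4 * (6 * K + 12 + 2)) := by positivity
        linarith
      · positivity
      · push_cast
        push_cast at hqC
        refine hqC.trans ?_
        have : (0 : ℝ) ≤ (K + 2 + 4 * (6 * K + 12 + 2)) := by positivity
        linarith
      · refine le_trans ?_ hcard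
        rw [Fintype.card_sigma]
        push_cast
        refine sum_le_sum fun t _ => ?_
        rw [Fintype.card_fin]
        push_cast
        have e1 : (⌊D + a⌋₊ : ℝ) ≤ D + a := Nat.floor_le (by positivity)
        have e2 : (⌊min (((t : ℕ) + 1 : ℝ) / m) 1 * D + a⌋₊ : ℝ) ≤
            min (((t : ℕ) + 1 : ℝ) / m) 1 * D + a := Nat.floor_le (by positivity)
        linarith
  obtain ⟨col, h1, h2⟩ := hcol
  refine ⟨col, fun x y hxy => h1 _ ?_, fun x y x' y' hxy hxy' hne hconf =>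
    h2 _ ?_ _ ?_ hne hconf⟩
  · simp only [E₀, mem_filter, mem_univ, true_and]
    intro u v huv
    rcases Sym2.eq_iff.1 huv with ⟨h, h'⟩ | ⟨h, h'⟩
    · rw [← h, ← h']; exact hxy
    · rw [← h, ← h']; exact hsym _ _ hxy
  · simp only [E₀, mem_filter, mem_univ, true_and]
    intro u v huv
    rcases Sym2.eq_iff.1 huv with ⟨h, h'⟩ | ⟨h, h'⟩
    · rw [← h, ← h']; exact hxy
    · rw [← h, ← h']; exact hsym _ _ hxy
  · simp only [E₀, mem_filter, mem_univ, true_and]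
    intro u v huv
    rcases Sym2.eq_iff.1 huv with ⟨h, h'⟩ | ⟨h, h'⟩
    · rw [← h, ← h']; exact hxy'
    · rw [← h, ← h']; exact hsym _ _ hxy'

end Pool.Agent.SG
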