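import Pool.Agent.Helper66.SG.Defs
import Pool.Agent.Helper66.SEC.Tail
import Pool.Agent.Helper66.SEC.Phase

/-!
# M1: one phase of the nibble, abstract form
-/

set_option autoImplicit false

namespace Pool.Agent.SG

open Finset Pool.Agent.SEC
open scoped Classical

namespace Phase

/-- Bonferroni, general form -/
theorem bonf {Ω ι : Type} [Fintype Ω] [Nonempty Ω] (Q : Finset ι) (A : ι → Ω → Prop) (q : ℝ)
    (hq : ∀ e ∈ Q, ∀ e' ∈ Q, e ≠ e' → pr (fun ω => A e ω ∧ A e' ω) ≤ q) (hq0 : 0 ≤ q) :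
    pr (fun ω => ∀ e ∈ Q, ¬ A e ω) ≤ 1 - (∑ e ∈ Q, pr (A e) - (Q.card : ℝ) ^ 2 * q / 2) := by
  have hpt : ∀ ω, Tail.ind (∀ e ∈ Q, ¬ A e ω) ≤
      1 - (∑ e ∈ Q, Tail.ind (A e ω)) +
        (∑ x ∈ Q.offDiag, Tail.ind (A x.1 ω ∧ A x.2 ω)) / 2 := by
    intro ω
    set n := (Q.filter (fun e => A e ω)).card with hn
    have h1 : (∑ e ∈ Q, Tail.ind (A e ω)) = n := Tail.sum_ind _ _
    have h2 : (∑ x ∈ Q.offDiag, Tail.ind (A x.1 ω ∧ A x.2 ω)) = (n : ℝ) * n - n := by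
      rw [Tail.sum_ind Q.offDiag (fun x => A x.1 ω ∧ A x.2 ω)]
      have h3 : Q.offDiag.filter (fun x => A x.1 ω ∧ A x.2 ω) =
          (Q.filter (fun e => A e ω)).offDiag := by
        ext x
        simp only [mem_filter, mem_offDiag]
        tauto
      rw [h3, offDiag_card, Nat.cast_sub, Nat.cast_mul]
      exact Nat.le_mul_self _
    rw [h1, h2]
    by_cases h0 : ∀ e ∈ Q, ¬ A e ω
    · have : n = 0 := by
        rw [hn, card_eq_zero, filter_eq_empty_iff]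
        exact fun e he => h0 e he
      rw [Tail.ind_pos h0, this]
      norm_num
    · rw [Tail.ind_neg h0]
      rcases Nat.lt_or_ge n 2 with h4 | h4
      · interval_cases n <;> norm_num
      · have : (2 : ℝ) ≤ n := by exact_mod_cast h4
        nlinarith
  have hN : (0 : ℝ) < Fintype.card Ω := by exact_mod_cast Fintype.card_pos
  have hsum : pr (fun ω => ∀ e ∈ Q, ¬ A e ω) ≤
      1 - (∑ e ∈ Q, pr (A e)) +
        (∑ x ∈ Q.offDiag, pr (fun ω => A x.1 ω ∧ A x.2 ω)) / 2 := by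
    have h5 : (1 - (∑ e ∈ Q, pr (A e)) +
        (∑ x ∈ Q.offDiag, pr (fun ω => A x.1 ω ∧ A x.2 ω)) / 2) =
        (∑ ω, (1 - (∑ e ∈ Q, Tail.ind (A e ω)) +
          (∑ x ∈ Q.offDiag, Tail.ind (A x.1 ω ∧ A x.2 ω)) / 2)) /
          Fintype.card Ω := by
      have e2 : ∑ e ∈ Q, pr (A e) = (∑ e ∈ Q, ∑ ω : Ω, Tail.ind (A e ω)) / Fintype.card Ω := by
        rw [sum_div]
        exact sum_congr rfl fun e _ => Tail.pr_eq_sum _
      have e3 : ∑ x ∈ Q.offDiag, pr (fun ω => A x.1 ω ∧ A x.2 ω) =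
          (∑ x ∈ Q.offDiag, (∑ ω : Ω, Tail.ind (A x.1 ω ∧ A x.2 ω))) / Fintype.card Ω := by
        rw [sum_div]
        exact sum_congr rfl fun x _ => Tail.pr_eq_sum _
      have e4 : ∑ ω : Ω, (1 - (∑ e ∈ Q, Tail.ind (A e ω)) +
          (∑ x ∈ Q.offDiag, Tail.ind (A x.1 ω ∧ A x.2 ω)) / 2) =
          (Fintype.card Ω : ℝ) - (∑ e ∈ Q, ∑ ω : Ω, Tail.ind (A e ω)) +
          (∑ x ∈ Q.offDiag, ∑ ω : Ω, Tail.ind (A x.1 ω ∧ A x.2 ω)) / 2 := by
        rw [sum_add_distrib, sum_sub_distrib, ← sum_div, sum_comm (s := univ) (t := Q),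
          sum_comm (s := univ) (t := Q.offDiag), sum_const, card_univ, nsmul_eq_mul, mul_one]
      rw [e2, e3, e4]
      field_simp
    rw [h5, Tail.pr_eq_sum]
    exact div_le_div_of_nonneg_right (sum_le_sum fun ω _ => hpt ω) hN.le
  refine hsum.trans ?_
  have h7 : ∑ x ∈ Q.offDiag, pr (fun ω => A x.1 ω ∧ A x.2 ω) ≤ (Q.card : ℝ) ^ 2 * q := by
    have h8 : ∑ x ∈ Q.offDiag, pr (fun ω => A x.1 ω ∧ A x.2 ω) ≤ (Q.offDiag.card : ℝ) * q := by
      rw [← nsmul_eq_mul]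
      refine sum_le_card_nsmul _ _ _ fun x hx => ?_
      rw [mem_offDiag] at hx
      exact hq _ hx.1 _ hx.2.1 hx.2.2
    refine h8.trans (mul_le_mul_of_nonneg_right ?_ hq0)
    rw [offDiag_card]
    have : Q.card * Q.card - Q.card ≤ Q.card ^ 2 := by
      rw [sq]
      exact Nat.sub_le _ _
    exact_mod_cast this
  linarith

/-- independence of the coordinates -/
theorem pr_pi {V ι : Type} [Fintype V] [Fintype ι] {A : ι → Type} [∀ j, Fintype (A j)]
    (p : ∀ j, (V → A j) → Prop) :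
    pr (fun ω : V → (∀ j, A j) => ∀ j, p j (fun v => ω v j)) = ∏ j, pr (p j) := by
  unfold pr
  have h3 : Fintype.card (V → (∀ j, A j)) = ∏ j, Fintype.card (V → A j) := by
    rw [← Fintype.card_pi]
    exact Fintype.card_congr (Equiv.piComm (fun (_ : V) (j : ι) => A j))
  rw [prod_div_distrib, h3, Nat.cast_prod]
  congr 1
  have h2 : (Fintype.piFinset (fun j : ι => univ.filter (p j))).card =
      ∏ j, (univ.filter (p j)).card := by
    rw [Fintype.card_piFinset]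
  rw [← Nat.cast_prod, ← h2]
  congr 1
  refine card_bij' (fun ω _ => fun j x => ω x j) (fun g _ => fun x j => g j x) ?_ ?_ ?_ ?_
  · intro ω hω
    rw [Fintype.mem_piFinset]
    intro j
    rw [mem_filter]
    exact ⟨mem_univ _, (Tail.mem_fil.mp hω).2 j⟩
  · intro g hg
    rw [Fintype.mem_piFinset] at hg
    exact Tail.mem_fil.mpr ⟨mem_univ _, fun j => (Tail.mem_fil.mp (hg j)).2⟩
  · intro ω _
    rfl
  · intro g _
    rfl

section tail
variable {V E ι : Type} [Fintype V] [Fintype ι] {A : ι → Type} [∀ j, Fintype (A j)]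
  [∀ j, Nonempty (A j)] (M : ∀ j, (V → A j) → Finset E) (U : Finset E)

/-- the uncovered elements of `U` -/
noncomputable def lft (ω : V → (∀ j, A j)) : Finset E :=
  U.filter (fun e => ∀ j, e ∉ M j (fun v => ω v j))

theorem pr_left_all (Q : Finset E) (hQ : Q ⊆ U) (p q : ℝ)
    (hp : ∀ e ∈ U, p ≤ ∑ j, pr (fun ω : V → A j => e ∈ M j ω))
    (hq : ∀ e ∈ U, ∀ e' ∈ U, e ≠ e' → ∀ j,
      pr (fun ω : V → A j => e ∈ M j ω ∧ e' ∈ M j ω) ≤ q) (hq0 : 0 ≤ q) :
    pr (fun ω : V → (∀ j, A j) => ∀ e ∈ Q, e ∈ lft M U ω) ≤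
      Real.exp (-(Q.card * p - Fintype.card ι * (Q.card : ℝ) ^ 2 * q / 2)) := by
  have h1 : pr (fun ω : V → (∀ j, A j) => ∀ e ∈ Q, e ∈ lft M U ω) =
      ∏ j, pr (fun ω : V → A j => ∀ e ∈ Q, ¬ e ∈ M j ω) := by
    rw [← pr_pi (fun j (ω : V → A j) => ∀ e ∈ Q, ¬ e ∈ M j ω)]
    refine Tail.pr_congr fun ω => ⟨fun h j e he => ?_, fun h e he => ?_⟩
    · have := h e he
      rw [lft, mem_filter] at this
      exact this.2 j
    · rw [lft, mem_filter]
      exact ⟨hQ he, fun j => h j e he⟩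
  rw [h1]
  have h2 : ∀ j : ι, pr (fun ω : V → A j => ∀ e ∈ Q, ¬ e ∈ M j ω) ≤
      Real.exp (-(∑ e ∈ Q, pr (fun ω : V → A j => e ∈ M j ω) - (Q.card : ℝ) ^ 2 * q / 2)) := by
    intro j
    have h3 := bonf Q (fun e (ω : V → A j) => e ∈ M j ω) q
      (fun e he e' he' hne => hq e (hQ he) e' (hQ he') hne j) hq0
    refine h3.trans ?_
    have := Real.add_one_le_exp
      (-(∑ e ∈ Q, pr (fun ω : V → A j => e ∈ M j ω) - (Q.card : ℝ) ^ 2 * q / 2))
    linarith
  refine (prod_le_prod (fun j _ => Tail.pr_nonneg _) (fun j _ => h2 j)).trans ?_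
  rw [← Real.exp_sum]
  apply Real.exp_le_exp.2
  have h4 : (Q.card : ℝ) * p ≤ ∑ j : ι, ∑ e ∈ Q, pr (fun ω : V → A j => e ∈ M j ω) := by
    rw [sum_comm, ← nsmul_eq_mul]
    exact card_nsmul_le_sum _ _ _ fun e he => hp e (hQ he)
  have h5 : ∑ j : ι, -(∑ e ∈ Q, pr (fun ω : V → A j => e ∈ M j ω) - (Q.card : ℝ) ^ 2 * q / 2) =
      -(∑ j : ι, ∑ e ∈ Q, pr (fun ω : V → A j => e ∈ M j ω) -
        Fintype.card ι * ((Q.card : ℝ) ^ 2 * q / 2)) := by
    rw [sum_neg_distrib, sum_sub_distrib, sum_const, card_univ, nsmul_eq_mul]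
  rw [h5]
  linarith

/-- upper tail -/
theorem pr_left_tail (S : Finset E) (hS : S ⊆ U) (p q : ℝ)
    (hp : ∀ e ∈ U, p ≤ ∑ j, pr (fun ω : V → A j => e ∈ M j ω))
    (hq : ∀ e ∈ U, ∀ e' ∈ U, e ≠ e' → ∀ j,
      pr (fun ω : V → A j => e ∈ M j ω ∧ e' ∈ M j ω) ≤ q) (hq0 : 0 ≤ q)
    (n0 n1 β : ℝ) (k : ℕ) (hn0 : (S.card : ℝ) ≤ n0) (hk : (k : ℝ) < n1)
    (hβ : n0 * Real.exp (-(p - Fintype.card ι * k * q / 2)) ≤ β * (n1 - k)) :
    pr (fun ω : V → (∀ j, A j) => n1 < ((S.filter (fun e => e ∈ lft M U ω)).card : ℝ)) ≤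
      β ^ k := by
  obtain ⟨s, hs⟩ : ∃ s : ℕ, s = ⌊n1⌋₊ + 1 := ⟨_, rfl⟩
  have hn1 : 0 ≤ n1 := le_trans (Nat.cast_nonneg _) hk.le
  have hs1 : n1 < s := by
    rw [hs]
    push_cast
    exact Nat.lt_floor_add_one n1
  have hks : k < s := by
    have : (k : ℝ) < s := hk.trans hs1
    exact_mod_cast this
  have hck : (0 : ℝ) < s.choose k := by exact_mod_cast Nat.choose_pos hks.le
  set θ := Real.exp (-(p - Fintype.card ι * k * q / 2)) with hθ
  have hθk : Real.exp (-(k * p - Fintype.card ι * (k : ℝ) ^ 2 * q / 2)) = θ ^ k := by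
    rw [hθ, ← Real.exp_nat_mul]
    congr 1
    ring
  have hmono : pr (fun ω : V → (∀ j, A j) => n1 < ((S.filter (fun e => e ∈ lft M U ω)).card : ℝ)) ≤
      pr (fun ω : V → (∀ j, A j) => s ≤ (S.filter (fun e => e ∈ lft M U ω)).card) := by
    apply SEC.Phase.pr_mono
    intro ω hω
    rw [hs]
    exact Nat.succ_le_of_lt ((Nat.floor_lt hn1).2 hω)
  refine hmono.trans ?_
  -- moment bound
  have h1 : pr (fun ω : V → (∀ j, A j) => s ≤ (S.filter (fun e => e ∈ lft M U ω)).card) ≤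
      ∑ Q ∈ S.powersetCard k, (1 / (s.choose k : ℝ)) *
        pr (fun ω : V → (∀ j, A j) => ∀ e ∈ Q, e ∈ lft M U ω) := by
    refine Tail.pr_le_of_sum _ (S.powersetCard k) (fun _ => 1 / (s.choose k : ℝ))
      (fun Q ω => ∀ e ∈ Q, e ∈ lft M U ω) fun ω => ?_
    rw [← mul_sum]
    rw [Tail.sum_ind (S.powersetCard k) (fun Q => ∀ e ∈ Q, e ∈ lft M U ω)]
    have h2 : (S.powersetCard k).filter (fun Q => ∀ e ∈ Q, e ∈ lft M U ω) =
        (S.filter (fun e => e ∈ lft M U ω)).powersetCard k := by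
      ext Q
      simp only [mem_filter, mem_powersetCard, subset_iff]
      constructor
      · rintro ⟨⟨ha, hb⟩, hc⟩
        exact ⟨fun e he => ⟨ha he, hc e he⟩, hb⟩
      · rintro ⟨ha, hb⟩
        exact ⟨⟨fun e he => (ha he).1, hb⟩, fun e he => (ha he).2⟩
    rw [h2, card_powersetCard]
    by_cases h3 : s ≤ (S.filter (fun e => e ∈ lft M U ω)).card
    · rw [Tail.ind_pos h3, one_div, ← div_eq_inv_mul, one_le_div hck]
      exact_mod_cast Nat.choose_le_choose k h3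
    · rw [Tail.ind_neg h3]
      positivity
  have h4 : ∑ Q ∈ S.powersetCard k, (1 / (s.choose k : ℝ)) *
        pr (fun ω : V → (∀ j, A j) => ∀ e ∈ Q, e ∈ lft M U ω) ≤
      (S.powersetCard k).card • ((1 / (s.choose k : ℝ)) * θ ^ k) := by
    refine sum_le_card_nsmul _ _ _ fun Q hQ => ?_
    rw [mem_powersetCard] at hQ
    refine mul_le_mul_of_nonneg_left ?_ (by positivity)
    have h5 := pr_left_all M U Q (hQ.1.trans hS) p q hp hq hq0
    rw [hQ.2, hθk] at h5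
    exact h5
  refine (h1.trans h4).trans ?_
  rw [card_powersetCard, nsmul_eq_mul]
  have hsk : (0 : ℝ) < (s : ℝ) - k := by
    have : (k : ℝ) < s := by exact_mod_cast hks
    linarith
  have hn0' : 0 ≤ n0 := le_trans (Nat.cast_nonneg _) hn0
  have hfac : (0 : ℝ) < (k.factorial : ℝ) := by exact_mod_cast Nat.factorial_pos k
  have h6 : (k.factorial : ℝ) * (S.card.choose k : ℝ) ≤ n0 ^ k := by
    have : k.factorial * S.card.choose k ≤ S.card ^ k := by
      rw [← Nat.descFactorial_eq_factorial_mul_choose]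
      exact Nat.descFactorial_le_pow _ _
    have h' : (k.factorial : ℝ) * (S.card.choose k : ℝ) ≤ (S.card : ℝ) ^ k := by
      exact_mod_cast this
    exact h'.trans (pow_le_pow_left₀ (Nat.cast_nonneg _) hn0 k)
  have h7 : ((s : ℝ) - k) ^ k ≤ (k.factorial : ℝ) * (s.choose k : ℝ) := by
    have h8 : (s - k) ^ k ≤ k.factorial * s.choose k := by
      rw [← Nat.descFactorial_eq_factorial_mul_choose]
      exact (Nat.pow_le_pow_left (by omega) k).trans (Nat.pow_sub_le_descFactorial s k)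
    have h9 : (((s - k : ℕ) : ℝ)) ^ k ≤ (k.factorial : ℝ) * (s.choose k : ℝ) := by
      exact_mod_cast h8
    rwa [Nat.cast_sub hks.le] at h9
  have hθ0 : 0 ≤ θ ^ k := by positivity
  have h10 : (S.card.choose k : ℝ) * (1 / (s.choose k : ℝ)) ≤ n0 ^ k / ((s : ℝ) - k) ^ k := by
    rw [mul_one_div, div_le_div_iff₀ hck (by positivity)]
    have h11 : (k.factorial : ℝ) * ((S.card.choose k : ℝ) * ((s : ℝ) - k) ^ k) ≤
        (k.factorial : ℝ) * (n0 ^ k * (s.choose k : ℝ)) := by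
      calc (k.factorial : ℝ) * ((S.card.choose k : ℝ) * ((s : ℝ) - k) ^ k)
          = ((k.factorial : ℝ) * (S.card.choose k : ℝ)) * ((s : ℝ) - k) ^ k := by ring
        _ ≤ n0 ^ k * ((k.factorial : ℝ) * (s.choose k : ℝ)) :=
            mul_le_mul h6 h7 (by positivity) (by positivity)
        _ = _ := by ring
    exact le_of_mul_le_mul_left h11 hfac
  calc (S.card.choose k : ℝ) * (1 / (s.choose k : ℝ) * θ ^ k)
      = ((S.card.choose k : ℝ) * (1 / (s.choose k : ℝ))) * θ ^ k := by ring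
    _ ≤ (n0 ^ k / ((s : ℝ) - k) ^ k) * θ ^ k := mul_le_mul_of_nonneg_right h10 hθ0
    _ = (n0 * θ / (s - k)) ^ k := by
        rw [div_pow, mul_pow]
        ring
    _ ≤ β ^ k := by
        apply pow_le_pow_left₀
        · exact div_nonneg (mul_nonneg hn0' (Real.exp_pos _).le) hsk.le
        · rw [div_le_iff₀ hsk]
          have hn1k : 0 < n1 - k := by linarith
          have hβ0 : 0 ≤ β := by
            by_contra hneg
            push Not at hneg
            have h12 : β * (n1 - k) < 0 := mul_neg_of_neg_of_pos hneg hn1k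
            have h13 : 0 ≤ n0 * θ := mul_nonneg hn0' (Real.exp_pos _).le
            linarith
          refine hβ.trans ?_
          exact mul_le_mul_of_nonneg_left (by linarith) hβ0

end tail

end Phase

theorem phase {V E I Λ ι : Type} [Fintype V] [Fintype I] [Fintype Λ] [Fintype ι]
    (R : E → E → Prop) (B : E → Finset V) (U : Finset E) (p q : ℝ) (F : Fam R B U p q ι)
    (S : I → Λ → Finset E) (T : I → Finset V) (hST : ∀ i l, ∀ e ∈ S i l, B e ⊆ T i)
    (d : ℕ) (hd : ∀ i, (univ.filter (fun i' => ∃ v, v ∈ T i ∧ v ∈ T i')).card ≤ d)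
    (hq0 : 0 ≤ q) (n0 n1 : I → Λ → ℝ) (δ δ' β : ℝ) (k : ℕ)
    (h0 : ∀ i, pr (fun l => n0 i l < ((S i l ∩ U).card : ℝ)) ≤ δ)
    (hk : ∀ i l, (k : ℝ) < n1 i l)
    (hβ : ∀ i l, n0 i l * Real.exp (-(p - Fintype.card ι * k * q / 2)) ≤ β * (n1 i l - k))
    (hβ0 : 0 ≤ β) (hδ' : 0 < δ') (hlll : 4 * (β ^ k / δ') * (d + 1) ≤ 1) :
    ∃ M : ι → Finset E, (∀ j, ∀ e ∈ M j, ∀ e' ∈ M j, e ≠ e' → ¬ R e e') ∧
      ∀ i, pr (fun l => n1 i l <
        ((S i l ∩ U.filter (fun e => ∀ j, e ∉ M j)).card : ℝ)) ≤ δ + δ' := by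
  let inst1 : ∀ j, Fintype (F.A j) := F.fin
  have inst2 : ∀ j, Nonempty (F.A j) := F.ne
  let bad : I → (V → (∀ j, F.A j)) → Prop := fun i ω =>
    δ' < pr (fun l => ((S i l ∩ U).card : ℝ) ≤ n0 i l ∧
      n1 i l < (((S i l ∩ U).filter (fun e => e ∈ Phase.lft F.M U ω)).card : ℝ))
  have hloc : ∀ i (ω ω' : V → (∀ j, F.A j)), (∀ v ∈ T i, ω v = ω' v) → (bad i ω ↔ bad i ω') := by
    intro i ω ω' h
    have h1 : ∀ l, (S i l ∩ U).filter (fun e => e ∈ Phase.lft F.M U ω) =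
        (S i l ∩ U).filter (fun e => e ∈ Phase.lft F.M U ω') := by
      intro l
      refine filter_congr fun e he => ?_
      have he' := (mem_inter.1 he).1
      unfold Phase.lft
      rw [mem_filter, mem_filter]
      refine and_congr_right fun _ => forall_congr' fun j => not_congr ?_
      exact F.loc j e _ _ fun v hv => by rw [h v (hST i l e he' hv)]
    simp only [bad, h1]
  have hpr : ∀ i, pr (bad i) ≤ β ^ k / δ' := by
    intro i
    refine SEC.Phase.markov (fun (ω : V → (∀ j, F.A j)) l => ((S i l ∩ U).card : ℝ) ≤ n0 i l ∧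
      n1 i l < (((S i l ∩ U).filter (fun e => e ∈ Phase.lft F.M U ω)).card : ℝ))
      (β ^ k) δ' (pow_nonneg hβ0 k) hδ' ?_
    intro l
    by_cases hl : ((S i l ∩ U).card : ℝ) ≤ n0 i l
    · refine (SEC.Phase.pr_mono fun ω hω => hω.2).trans ?_
      exact Phase.pr_left_tail F.M U (S i l ∩ U) inter_subset_right p q F.cov F.pair hq0
        (n0 i l) (n1 i l) β k hl (hk i l) (hβ i l)
    · rw [SEC.Phase.pr_false (fun ω hω => hl hω.1)]
      exact pow_nonneg hβ0 k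
  obtain ⟨ω, hω⟩ := lll (T := V) (A := ∀ j, F.A j) (ι := I) T bad hloc d hd (β ^ k / δ') hpr hlll
  refine ⟨fun j => F.M j (fun v => ω v j), fun j => F.ind j _, ?_⟩
  intro i
  have h1 : ¬ δ' < pr (fun l => ((S i l ∩ U).card : ℝ) ≤ n0 i l ∧
      n1 i l < (((S i l ∩ U).filter (fun e => e ∈ Phase.lft F.M U ω)).card : ℝ)) := hω i
  have h2 := not_lt.1 h1
  refine le_trans (SEC.Phase.pr_mono (q := fun l => n0 i l < ((S i l ∩ U).card : ℝ) ∨
    (((S i l ∩ U).card : ℝ) ≤ n0 i l ∧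
      n1 i l < (((S i l ∩ U).filter (fun e => e ∈ Phase.lft F.M U ω)).card : ℝ))) ?_)
    ((SEC.Phase.pr_or_le _ _).trans (add_le_add (h0 i) h2))
  intro l hl
  by_cases h3 : ((S i l ∩ U).card : ℝ) ≤ n0 i l
  · right
    refine ⟨h3, lt_of_lt_of_le hl ?_⟩
    have h4 : S i l ∩ U.filter (fun e => ∀ j, e ∉ F.M j (fun v => ω v j)) ⊆
        (S i l ∩ U).filter (fun e => e ∈ Phase.lft F.M U ω) := by
      intro e he
      rw [mem_inter, mem_filter] at he
      rw [mem_filter, mem_inter]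
      refine ⟨⟨he.1, he.2.1⟩, ?_⟩
      unfold Phase.lft
      rw [mem_filter]
      exact he.2
    exact_mod_cast card_le_card h4
  · left
    exact not_le.1 h3

end Pool.Agent.SG
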