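import Pool.Agent.Helper66.SG.Defs

/-!
# M3: deterministic facts on the domination process
-/

set_option autoImplicit false

namespace Pool.Agent.SG

open Finset Pool.Agent.SEC
open scoped Classical

section process
variable {V : Type} [Fintype V] (adj : V → V → Prop) {K N : ℕ} (l : V → Fin K → Fin N)

omit [Fintype V] in
theorem alive_succ (k : ℕ) (v : V) : alive adj l (k + 1) v ↔
    alive adj l k v ∧ ∀ z, (z = v ∨ adj v z) → alive adj l k z → ¬ rings l k z := Iff.rfl

omit [Fintype V] in
theorem alive_mono {k k' : ℕ} (h : k ≤ k') {v : V} (hv : alive adj l k' v) : alive adj l k v := by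
  induction k', h using Nat.le_induction with
  | base => exact hv
  | succ n _ ih => exact ih hv.1

omit [Fintype V] in
theorem arc_dead_tail {k : ℕ} {z y : V} (h : arc adj l k z y) : ¬ alive adj l (k + 1) z :=
  fun h' => h'.2 z (Or.inl rfl) h.2.1 h.2.2.2.1

omit [Fintype V] in
theorem arc_dead_head (hsym : ∀ x y, adj x y → adj y x) {k : ℕ} {z y : V}
    (h : arc adj l k z y) : ¬ alive adj l (k + 1) y :=
  fun h' => h'.2 z (Or.inr (hsym _ _ h.1)) h.2.1 h.2.2.2.1

omit [Fintype V] in
/-- two arcs with different tails: everything is disjoint and non-adjacent, except the possible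
adjacencies of the heads, and of the tail of the later arc with the head of the earlier arc -/
theorem arc_arc (hsym : ∀ x y, adj x y → adj y x) {k k' : ℕ} {z y z' y' : V}
    (h : arc adj l k z y) (h' : arc adj l k' z' y') (hkk : k ≤ k') (hz : z ≠ z') :
    z ≠ y' ∧ y ≠ z' ∧ y ≠ y' ∧ ¬ adj z z' ∧ ¬ adj z y' ∧ (adj z' y → k < k') := by
  obtain ⟨h1, h2, h3, h4, h5⟩ := id h
  obtain ⟨h1', h2', h3', h4', h5'⟩ := id h'
  rcases Nat.lt_or_ge k k' with hlt | hge
  · have hz' : alive adj l (k + 1) z' := alive_mono adj l hlt h2'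
    have hy' : alive adj l (k + 1) y' := alive_mono adj l hlt h3'
    refine ⟨?_, ?_, ?_, ?_, ?_, fun _ => hlt⟩
    · rintro rfl
      exact arc_dead_tail adj l h hy'
    · rintro rfl
      exact arc_dead_head adj l hsym h hz'
    · rintro rfl
      exact arc_dead_head adj l hsym h hy'
    · intro ha
      exact hz'.2 z (Or.inr (hsym _ _ ha)) h2 h4
    · intro ha
      exact hy'.2 z (Or.inr (hsym _ _ ha)) h2 h4
  · have hkk' : k = k' := le_antisymm hkk hge
    subst hkk'
    refine ⟨?_, ?_, ?_, ?_, ?_, ?_⟩
    · rintro rfl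
      exact h5' z hz (Or.inl h1') h4
    · rintro rfl
      exact h5 y hz.symm (Or.inl h1) h4'
    · rintro rfl
      exact h5' z hz (Or.inr (hsym _ _ h1)) h4
    · intro ha
      exact h5 z' hz.symm (Or.inl ha) h4'
    · intro ha
      exact h5' z hz (Or.inr (hsym _ _ ha)) h4
    · intro ha
      exact absurd h4' (h5 z' hz.symm (Or.inr (hsym _ _ ha)))

omit [Fintype V] in
theorem arc_same (hsym : ∀ x y, adj x y → adj y x) {k k' : ℕ} {z y y' : V}
    (h : arc adj l k z y) (h' : arc adj l k' z y') : k = k' := by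
  rcases Nat.lt_trichotomy k k' with hlt | heq | hgt
  · exact absurd (alive_mono adj l hlt h'.2.1) (arc_dead_tail adj l h)
  · exact heq
  · exact absurd (alive_mono adj l hgt h.2.1) (arc_dead_tail adj l h')

omit [Fintype V] in
/-- the level at which a vertex dies -/
theorem dl_eq {k : ℕ} (hk : k < K) {v : V} (h : alive adj l k v) (h' : ¬ alive adj l (k + 1) v) :
    dl adj l v = k := by
  unfold dl
  have : (range K).filter (fun k => alive adj l (k + 1) v) = range k := by
    ext j
    rw [mem_filter, mem_range, mem_range]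
    constructor
    · rintro ⟨_, h1⟩
      by_contra hcon
      exact h' (alive_mono adj l (by omega) h1)
    · intro hj
      exact ⟨by omega, alive_mono adj l (by omega) h⟩
  rw [this, card_range]

omit [Fintype V] in
/-- the level of the tail and of the head of an arc -/
theorem dl_tail {k : ℕ} (hk : k < K) {z y : V} (h : arc adj l k z y) : dl adj l z = k :=
  dl_eq adj l hk h.2.1 (arc_dead_tail adj l h)

omit [Fintype V] in
theorem dl_head (hsym : ∀ x y, adj x y → adj y x) {k : ℕ} (hk : k < K) {z y : V}
    (h : arc adj l k z y) : dl adj l y = k :=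
  dl_eq adj l hk h.2.2.1 (arc_dead_head adj l hsym h)

omit [Fintype V] in
/-- a vertex is the head of at most one arc -/
theorem arc_head_unique (hsym : ∀ x y, adj x y → adj y x) {k k' : ℕ} {z z' y : V}
    (h : arc adj l k z y) (h' : arc adj l k' z' y) : z = z' := by
  by_contra hne
  rcases le_total k k' with hkk | hkk
  · exact (arc_arc adj l hsym h h' hkk hne).2.2.1 rfl
  · exact (arc_arc adj l hsym h' h hkk (Ne.symm hne)).2.2.1 rfl

/-- alive neighbours and heads of arcs -/
theorem card_alive_add_hd (hsym : ∀ x y, adj x y → adj y x) (k : ℕ) (v : V) :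
    ((nb adj v).filter (fun w => alive adj l k w)).card + (hd adj l k v).card ≤
      (nb adj v).card := by
  have h1 : (hd adj l k v).card ≤ ((nb adj v).filter (fun w => ¬ alive adj l k w)).card := by
    unfold hd
    refine card_image_le.trans ?_
    refine card_le_card_of_injOn (fun a => a.2) ?_ ?_
    · intro a ha
      simp only [coe_filter, mem_univ, true_and, Set.mem_ofPred_eq] at ha
      obtain ⟨h1, k', hk', h2⟩ := ha
      simp only [coe_filter, nb, mem_filter, mem_univ, true_and, Set.mem_ofPred_eq]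
      exact ⟨h1, fun h3 => arc_dead_head adj l hsym h2 (alive_mono adj l hk' h3)⟩
    · intro a ha a' ha' haa
      simp only [coe_filter, mem_univ, true_and, Set.mem_ofPred_eq] at ha ha'
      obtain ⟨_, k1, _, h1⟩ := ha
      obtain ⟨_, k2, _, h2⟩ := ha'
      dsimp only at haa
      rw [← haa] at h2
      exact Prod.ext (arc_head_unique adj l hsym h1 h2) haa
  have h2 := card_filter_add_card_filter_not (s := nb adj v) (fun w => alive adj l k w)
  omega

/-- the number of heads is bounded by the number of their edges -/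
theorem card_heads_le (hsym : ∀ x y, adj x y → adj y x) (U : Finset (Sym2 V)) (k : ℕ) (v : V) :
    (univ.filter (fun w => adj v w ∧ ∃ z, ∃ k' < k, arc adj l k' z w ∧ s(z, w) ∈ U)).card ≤
      (hd adj l k v ∩ U).card := by
  have hex : ∀ w : V, ∃ z : V, (∃ z, ∃ k' < k, arc adj l k' z w ∧ s(z, w) ∈ U) →
      ∃ k' < k, arc adj l k' z w ∧ s(z, w) ∈ U := by
    intro w
    by_cases h : ∃ z, ∃ k' < k, arc adj l k' z w ∧ s(z, w) ∈ U
    · obtain ⟨z, hz⟩ := h
      exact ⟨z, fun _ => hz⟩
    · exact ⟨w, fun h' => absurd h' h⟩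
  choose f hf using hex
  refine card_le_card_of_injOn (fun w => s(f w, w)) ?_ ?_
  · intro w hw
    simp only [coe_filter, mem_univ, true_and, Set.mem_ofPred_eq] at hw
    obtain ⟨hvw, hex⟩ := hw
    obtain ⟨k', hk', h1, h2⟩ := hf w hex
    simp only [coe_inter, Set.mem_inter_iff, mem_coe]
    refine ⟨?_, h2⟩
    unfold hd
    rw [mem_image]
    exact ⟨(f w, w), mem_filter.2 ⟨mem_univ _, hvw, k', hk', h1⟩, rfl⟩
  · intro w hw w' hw' hww
    simp only [coe_filter, mem_univ, true_and, Set.mem_ofPred_eq] at hw hw'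
    obtain ⟨k1, _, h1, _⟩ := hf w hw.2
    obtain ⟨k2, _, h2, _⟩ := hf w' hw'.2
    dsimp only at hww
    rcases Sym2.eq_iff.1 hww with ⟨_, h⟩ | ⟨h, h'⟩
    · exact h
    · -- `f w = w'`, `w = f w'`
      by_cases hne : f w = f w'
      · rw [h', ← hne, h]
      · exfalso
        rcases le_total k1 k2 with hkk | hkk
        · exact (arc_arc adj l hsym h1 h2 hkk hne).1 h
        · exact (arc_arc adj l hsym h2 h1 hkk (Ne.symm hne)).1 h'.symm

end process

end Pool.Agent.SG
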