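import Pool.Agent.Helper66.SG.Phase
import Pool.Agent.Helper66.SEC.Iterate

set_option autoImplicit false

namespace Pool.Agent.SG

open Finset Pool.Agent.SEC
open scoped Classical

namespace Transfer

/-- repetition of a family -/
noncomputable def rep {V E : Type} [Fintype V] {R : E → E → Prop} {B : E → Finset V}
    {U : Finset E} {p q : ℝ} {ι : Type} [Fintype ι] (F : Fam R B U p q ι) (g : ℕ) :
    Fam R B U (g * p) q (ι × Fin g) where
  A := fun t => F.A t.1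
  fin := fun t => F.fin t.1
  ne := fun t => F.ne t.1
  M := fun t => F.M t.1
  ind := fun t => F.ind t.1
  loc := fun t => F.loc t.1
  cov := by
    intro e he
    have h1 := F.cov e he
    have key : ∀ c : ℝ, (g : ℝ) * c = ∑ _y : Fin g, c := by
      intro c
      simp
    rw [Fintype.sum_prod_type]
    refine le_trans (mul_le_mul_of_nonneg_left h1 (Nat.cast_nonneg g)) (le_of_eq ?_)
    rw [Finset.mul_sum]
    apply Finset.sum_congr rfl
    intro x _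
    exact key _
  pair := fun e he e' he' hne t => F.pair e he e' he' hne t.1

theorem step_col {E ι : Type} [Fintype ι] (R : E → E → Prop) (E₀ U : Finset E) (n : ℕ)
    (col : E → ℕ) (h1 : ∀ e ∈ E₀, e ∉ U → col e < n)
    (h2 : ∀ e ∈ E₀, ∀ e' ∈ E₀, e ∉ U → e' ∉ U → e ≠ e' → R e e' → col e ≠ col e')
    (M : ι → Finset E) (hM : ∀ j, ∀ e ∈ M j, ∀ e' ∈ M j, e ≠ e' → ¬ R e e') :
    ∃ col' : E → ℕ,
      (∀ e ∈ E₀, e ∉ U.filter (fun e => ∀ j, e ∉ M j) → col' e < n + Fintype.card ι) ∧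
      (∀ e ∈ E₀, ∀ e' ∈ E₀, e ∉ U.filter (fun e => ∀ j, e ∉ M j) →
        e' ∉ U.filter (fun e => ∀ j, e ∉ M j) → e ≠ e' → R e e' → col' e ≠ col' e') := by
  let φ : ι → ℕ := fun j => (Fintype.equivFin ι j : ℕ)
  have hφ : ∀ j, φ j < Fintype.card ι := fun j => (Fintype.equivFin ι j).2
  have hφi : ∀ j j', φ j = φ j' → j = j' := fun j j' h =>
    (Fintype.equivFin ι).injective (Fin.ext h)
  have hsub : ∀ e ∈ U, e ∉ U.filter (fun e => ∀ j, e ∉ M j) → ∃ j, e ∈ M j := by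
    intro e he h
    by_contra hcon
    push Not at hcon
    exact h (mem_filter.mpr ⟨he, hcon⟩)
  refine ⟨fun e => if h : ∃ j, e ∈ M j ∧ e ∈ U then n + φ h.choose else col e, ?_, ?_⟩
  · intro e he hne
    dsimp only
    by_cases h : ∃ j, e ∈ M j ∧ e ∈ U
    · rw [dif_pos h]
      have := hφ h.choose
      omega
    · rw [dif_neg h]
      have heU : e ∉ U := by
        intro heU
        obtain ⟨j, hj⟩ := hsub e heU hne
        exact h ⟨j, hj, heU⟩
      have := h1 e he heU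
      omega
  · intro e he e' he' hne hne' hee hr hcc
    dsimp only at hcc
    by_cases h : ∃ j, e ∈ M j ∧ e ∈ U
    · by_cases h' : ∃ j, e' ∈ M j ∧ e' ∈ U
      · rw [dif_pos h, dif_pos h'] at hcc
        have h5 : h.choose = h'.choose := hφi _ _ (by omega)
        have h6 := h.choose_spec.1
        have h7 := h'.choose_spec.1
        rw [← h5] at h7
        exact hM _ e h6 e' h7 hee hr
      · rw [dif_pos h, dif_neg h'] at hcc
        have heU : e' ∉ U := by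
          intro heU
          obtain ⟨j, hj⟩ := hsub e' heU hne'
          exact h' ⟨j, hj, heU⟩
        have := h1 e' he' heU
        omega
    · have heU : e ∉ U := by
        intro heU
        obtain ⟨j, hj⟩ := hsub e heU hne
        exact h ⟨j, hj, heU⟩
      by_cases h' : ∃ j, e' ∈ M j ∧ e' ∈ U
      · rw [dif_neg h, dif_pos h'] at hcc
        have := h1 e he heU
        omega
      · rw [dif_neg h, dif_neg h'] at hcc
        have heU' : e' ∉ U := by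
          intro heU
          obtain ⟨j, hj⟩ := hsub e' heU hne'
          exact h' ⟨j, hj, heU⟩
        exact h2 e he e' he' heU heU' hee hr hcc

/-- the exponential factor -/
theorem theta_le {c a γ C Δ D p q N g k τ L : ℝ} (hc : 0 ≤ c) (ha0 : 0 < a) (ha1 : a ≤ 1)
    (hΔ : 0 < Δ) (hD : 0 < D) (hp : 0 < p) (hq : 0 ≤ q)
    (hqC : q * (Δ ^ 2 * D) ≤ C) (hN : N ≤ (c + a) * D * Δ * p) (hg0 : 0 ≤ g) (hk : 0 ≤ k)
    (hkk : (c + a) * k * C ≤ a * Δ) (hL : 0 ≤ L) (hγ : Real.exp (-L) ≤ γ)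
    (hτ : τ = (1 + a) * L) (hg : τ ≤ g * p) :
    Real.exp (-(g * p - N * g * k * q / 2)) ≤ γ := by
  refine le_trans (Real.exp_le_exp.2 (neg_le_neg ?_)) hγ
  have hC0 : 0 ≤ C := le_trans (by positivity) hqC
  have h1 : N * g * k * q / 2 ≤ (g * p) * (a / 2) := by
    have h2 : N * (g * k * q / 2) ≤ (c + a) * D * Δ * p * (g * k * q / 2) :=
      mul_le_mul_of_nonneg_right hN (by positivity)
    have h3 : q * (Δ * D) ≤ C / Δ := by
      rw [le_div_iff₀ hΔ]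
      calc q * (Δ * D) * Δ = q * (Δ ^ 2 * D) := by ring
        _ ≤ C := hqC
    have h4 : (c + a) * D * Δ * p * (g * k * q / 2) = (g * p) * ((c + a) * k / 2) * (q * (Δ * D)) := by
      ring
    have h5 : (g * p) * ((c + a) * k / 2) * (q * (Δ * D)) ≤
        (g * p) * ((c + a) * k / 2) * (C / Δ) :=
      mul_le_mul_of_nonneg_left h3 (by positivity)
    have h6 : (g * p) * ((c + a) * k / 2) * (C / Δ) = (g * p) * (((c + a) * k * C) / Δ / 2) := by
      ring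
    have h7 : (c + a) * k * C / Δ ≤ a := by
      rw [div_le_iff₀ hΔ]
      exact hkk
    have h8 : (g * p) * (((c + a) * k * C) / Δ / 2) ≤ (g * p) * (a / 2) :=
      mul_le_mul_of_nonneg_left (by linarith) (by positivity)
    calc N * g * k * q / 2 = N * (g * k * q / 2) := by ring
      _ ≤ _ := h2
      _ = _ := h4
      _ ≤ _ := h5
      _ = _ := h6
      _ ≤ _ := h8
  have h9 : τ * (1 - a / 2) ≤ g * p * (1 - a / 2) :=
    mul_le_mul_of_nonneg_right hg (by linarith)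
  have h10 : L ≤ τ * (1 - a / 2) := by
    rw [hτ]
    have : 0 ≤ L * (a / 2 - a ^ 2 / 2) := mul_nonneg hL (by nlinarith)
    nlinarith
  linarith

/-- the condition of one phase -/
theorem beta_ineq {γ κ Δ s x k θ y γi : ℝ} (hΔ : 0 < Δ) (hκ : 0 < κ) (hκ1 : y ≤ 1)
    (hs0 : 0 ≤ s) (hs : s ≤ Δ) (hγi0 : 0 ≤ γi) (hγi : γi ≤ 1) (hγ1 : γ ≤ 1)
    (hθ : θ ≤ γ) (hk : k ≤ κ * Δ / 2) (hy : 0 ≤ y) (hx : x = γi * γ * s) :
    (γi * s + y * Δ) * θ ≤ 1 / (1 + κ / 4) * (x + (y + κ) * Δ - k) := by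
  have h1 : (γi * s + y * Δ) * θ ≤ (γi * s + y * Δ) * γ :=
    mul_le_mul_of_nonneg_left hθ (by positivity)
  have h2 : (γi * s + y * Δ) * γ ≤ x + y * Δ := by
    have : y * Δ * γ ≤ y * Δ * 1 := mul_le_mul_of_nonneg_left hγ1 (by positivity)
    rw [hx]
    nlinarith
  have hx1 : x ≤ Δ := by
    rw [hx]
    have h3 : γi * γ ≤ 1 := by nlinarith
    have h4 : γi * γ * s ≤ 1 * s := mul_le_mul_of_nonneg_right h3 hs0
    linarith
  have hx2 : x + y * Δ ≤ 2 * Δ := by nlinarith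
  have hpos : 0 < 1 + κ / 4 := by linarith
  refine h1.trans (h2.trans ?_)
  rw [one_div, ← div_eq_inv_mul, le_div_iff₀ hpos]
  nlinarith

theorem lll_num {Δ β : ℝ} {k C : ℕ} (hΔ : 8 ≤ Δ) (hβ : 0 ≤ β)
    (h : β ^ k * Δ ^ (C + 4) ≤ 1) : 4 * (β ^ k / (1 / Δ ^ 3)) * (Δ ^ C + 1) ≤ 1 := by
  have h1 : (1 : ℝ) ≤ Δ ^ C := one_le_pow₀ (by linarith)
  have h0 : 0 < Δ := by linarith
  have h2 : 4 * (β ^ k / (1 / Δ ^ 3)) * (Δ ^ C + 1) ≤ 4 * (β ^ k * Δ ^ 3) * (2 * Δ ^ C) := by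
    have h3 : β ^ k / (1 / Δ ^ 3) = β ^ k * Δ ^ 3 := by field_simp
    rw [h3]
    exact mul_le_mul_of_nonneg_left (by linarith) (by positivity)
  have h3 : 4 * (β ^ k * Δ ^ 3) * (2 * Δ ^ C) = 8 * (β ^ k * Δ ^ (C + 3)) := by
    rw [pow_add]
    ring
  have h4 : 8 * (β ^ k * Δ ^ (C + 3)) ≤ Δ * (β ^ k * Δ ^ (C + 3)) :=
    mul_le_mul_of_nonneg_right hΔ (by positivity)
  have h5 : Δ * (β ^ k * Δ ^ (C + 3)) = β ^ k * Δ ^ (C + 4) := by ring
  linarith

theorem final_num {c ε a C Δ Y s L τ : ℝ} (hc : 0 ≤ c) (ha0 : 0 < a) (ha1 : a ≤ 1 / 40)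
    (haε : a * (4 * c + 6) ≤ ε / 2) (hC : 0 ≤ C) (hΔ1 : 1 ≤ Δ)
    (hΔ : (c + a) * C / a + 1 ≤ ε / 2 * Δ) (hs : s ≤ 1 / a)
    (hL0 : 0 ≤ L) (hL : L * (1 - a) ≤ a) (hτ : τ = (1 + a) * L) (hY : Y ≤ 2 * a * Δ) :
    (c + a) * Δ ^ 2 * (τ + C / Δ) * s + 2 * Δ * Y + 1 ≤ (c + ε) * Δ ^ 2 := by
  have h0 : 0 < Δ := by linarith
  have hτ0 : 0 ≤ τ := by rw [hτ]; positivity
  have h1 : (c + a) * Δ ^ 2 * (τ + C / Δ) * s ≤ (c + a) * Δ ^ 2 * (τ + C / Δ) * (1 / a) :=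
    mul_le_mul_of_nonneg_left hs (by positivity)
  have h2 : (c + a) * Δ ^ 2 * (τ + C / Δ) * (1 / a) =
      (c + a) * (τ / a) * Δ ^ 2 + (c + a) * C / a * Δ := by
    field_simp
  have h3 : τ / a ≤ 1 + 4 * a := by
    rw [div_le_iff₀ ha0, hτ]
    have h4 : L ≤ a * (1 + 2 * a) := by
      have h5 : a ≤ a * (1 + 2 * a) * (1 - a) := by
        have : 0 ≤ a ^ 2 * (1 - 2 * a) := mul_nonneg (by positivity) (by linarith)
        nlinarith
      have h6 : L * (1 - a) ≤ a * (1 + 2 * a) * (1 - a) := hL.trans h5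
      exact le_of_mul_le_mul_right h6 (by linarith)
    have h7 : (1 + a) * L ≤ (1 + a) * (a * (1 + 2 * a)) :=
      mul_le_mul_of_nonneg_left h4 (by linarith)
    have : 0 ≤ a ^ 2 * (1 - 2 * a) := mul_nonneg (by positivity) (by linarith)
    nlinarith
  have h8 : (c + a) * (τ / a) ≤ (c + a) * (1 + 4 * a) :=
    mul_le_mul_of_nonneg_left h3 (by linarith)
  have h9 : (c + a) * (1 + 4 * a) ≤ c + a * (4 * c + 2) := by nlinarith
  have h10 : (c + a) * (τ / a) * Δ ^ 2 ≤ (c + a * (4 * c + 2)) * Δ ^ 2 :=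
    mul_le_mul_of_nonneg_right (h8.trans h9) (by positivity)
  have h11 : 2 * Δ * Y ≤ 4 * a * Δ ^ 2 := by
    have := mul_le_mul_of_nonneg_left hY (by positivity : (0 : ℝ) ≤ 2 * Δ)
    nlinarith
  have h12 : (c + a) * C / a * Δ + 1 ≤ ε / 2 * Δ ^ 2 := by
    have h13 := mul_le_mul_of_nonneg_right hΔ h0.le
    nlinarith
  have h14 : a * (4 * c + 6) * Δ ^ 2 ≤ ε / 2 * Δ ^ 2 :=
    mul_le_mul_of_nonneg_right haε (by positivity)
  nlinarith

end Transfer

/-! ### M2: transfer theorem -/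

theorem transfer (c ε : ℝ) (hc : 0 ≤ c) (hε : 0 < ε) : ∃ ε' : ℝ, 0 < ε' ∧ ∀ η : ℝ, 0 < η →
    ∀ C : ℕ, ∃ Δ₀ : ℕ, ∀ Δ : ℕ, Δ₀ ≤ Δ →
    ∀ (V E I Λ : Type) [Fintype V] [Fintype E] [Fintype I] [Fintype Λ]
      (R : E → E → Prop) (B : E → Finset V) (S : I → Λ → Finset E) (T : I → Finset V)
      (E₀ : Finset E),
      (∀ e e', R e e' → R e' e) →
      (∀ i l, ∀ e ∈ S i l, B e ⊆ T i) →
      (∀ i l, (S i l).card ≤ Δ) →
      (∀ i, (univ.filter (fun i' => ∃ v, v ∈ T i ∧ v ∈ T i')).card ≤ Δ ^ C) →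
      (∀ (U : Finset E) (D a δ : ℝ), δ < 1 → 0 ≤ D → 0 ≤ a → U ⊆ E₀ → Good S Δ D a δ U →
        ∀ e ∈ U, ((U.filter (fun e' => R e e')).card : ℝ) ≤ 2 * Δ * (D + a)) →
      (∀ (U : Finset E) (D a δ : ℝ), ε' * Δ ≤ D → D ≤ Δ → 0 ≤ a → a ≤ η * Δ → 0 ≤ δ →
        δ ≤ 1 / (Δ : ℝ) ^ 2 → U ⊆ E₀ → Good S Δ D a δ U →
        ∃ (ι : Type) (_ : Fintype ι) (p q : ℝ), Nonempty (Fam R B U p q ι) ∧ 0 < p ∧ p * Δ ≤ C ∧
          0 ≤ q ∧ q * ((Δ : ℝ) ^ 2 * D) ≤ C ∧ (Fintype.card ι : ℝ) ≤ (c + ε') * D * Δ * p) →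
      ∃ col : E → ℕ, (∀ e ∈ E₀, (col e : ℝ) + 1 ≤ (c + ε) * (Δ : ℝ) ^ 2) ∧
        ∀ e ∈ E₀, ∀ e' ∈ E₀, e ≠ e' → R e e' → col e ≠ col e' := by
  obtain ⟨a, ha0, ha1, haε⟩ : ∃ a : ℝ, 0 < a ∧ a ≤ 1 / 40 ∧ a * (4 * c + 6) ≤ ε / 2 := by
    have h1 : min ε 1 ≤ 1 := min_le_right _ _
    have h2 : min ε 1 ≤ ε := min_le_left _ _
    have h3 : 0 < min ε 1 := lt_min hε one_pos
    refine ⟨min ε 1 / (40 * (c + 1)), by positivity, ?_, ?_⟩
    · rw [div_le_div_iff₀ (by positivity) (by norm_num)]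
      nlinarith
    · rw [div_mul_eq_mul_div, div_le_iff₀ (by positivity)]
      nlinarith
  refine ⟨a, ha0, fun η hη C => ?_⟩
  obtain ⟨γ, hγ⟩ : ∃ γ : ℝ, γ = 1 - a := ⟨_, rfl⟩
  have hγ0 : 0 < γ := by rw [hγ]; linarith
  have hγ1 : γ < 1 := by rw [hγ]; linarith
  have hex : ∃ t : ℕ, γ ^ t < a := exists_pow_lt_of_lt_one ha0 hγ1
  obtain ⟨t, ht, htmin⟩ : ∃ t : ℕ, γ ^ t < a ∧ ∀ i < t, a ≤ γ ^ i :=
    ⟨Nat.find hex, Nat.find_spec hex, fun i hi => not_lt.1 (Nat.find_min hex hi)⟩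
  have ht0 : 0 < t := by
    rcases Nat.eq_zero_or_pos t with h | h
    · rw [h, pow_zero] at ht
      linarith
    · exact h
  have htr : (0 : ℝ) < t := by exact_mod_cast ht0
  obtain ⟨κ, hκ⟩ : ∃ κ : ℝ, κ = min η a / t := ⟨_, rfl⟩
  have hη' : 0 < min η a := lt_min hη ha0
  have hκ0 : 0 < κ := by rw [hκ]; positivity
  have hκt : t * κ = min η a := by rw [hκ]; field_simp
  obtain ⟨L, hL⟩ : ∃ L : ℝ, L = -Real.log γ := ⟨_, rfl⟩
  have hL0 : 0 ≤ L := by
    rw [hL]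
    have := Real.log_nonpos hγ0.le hγ1.le
    linarith
  have hLγ : Real.exp (-L) ≤ γ := by
    rw [hL, neg_neg, Real.exp_log hγ0]
  have hLa : L * (1 - a) ≤ a := by
    have h1 := Real.one_sub_inv_le_log_of_pos hγ0
    have h2 : L ≤ γ⁻¹ - 1 := by rw [hL]; linarith
    rw [← hγ]
    have h3 : L * γ ≤ (γ⁻¹ - 1) * γ := mul_le_mul_of_nonneg_right h2 hγ0.le
    have h4 : (γ⁻¹ - 1) * γ = 1 - γ := by field_simp
    linarith
  obtain ⟨τ, hτ⟩ : ∃ τ : ℝ, τ = (1 + a) * L := ⟨_, rfl⟩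
  have hτ0 : 0 ≤ τ := by rw [hτ]; positivity
  obtain ⟨β, hβ⟩ : ∃ β : ℝ, β = 1 / (1 + κ / 4) := ⟨_, rfl⟩
  have hβ0 : 0 < β := by rw [hβ]; positivity
  have hβ1 : β < 1 := by
    rw [hβ, div_lt_one (by positivity)]
    linarith
  obtain ⟨ℓ, hℓ⟩ : ∃ ℓ : ℝ, ℓ = -Real.log β := ⟨_, rfl⟩
  have hℓ0 : 0 < ℓ := by
    rw [hℓ]
    have := Real.log_neg hβ0 hβ1
    linarith
  obtain ⟨K, hK⟩ : ∃ K : ℝ, K = (C + 4) / ℓ := ⟨_, rfl⟩
  have hK0 : 0 ≤ K := by rw [hK]; positivity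
  obtain ⟨N1, hN1⟩ := SEC.Numbers.ev_log K (κ / 2) (by positivity)
  obtain ⟨N2, hN2⟩ := SEC.Numbers.ev_log K (a / ((c + a) * C + 1)) (by positivity)
  obtain ⟨N3, hN3⟩ : ∃ N3 : ℕ, 2 * ((c + a) * C / a + 1) / ε ≤ (N3 : ℝ) := ⟨_, Nat.le_ceil _⟩
  refine ⟨N1 + N2 + N3 + t + 8, fun Δ hΔ => ?_⟩
  intro V E I Λ _ _ _ _ R B S T E₀ hR hST hS hT hconf hfam
  have hx8 : (8 : ℝ) ≤ Δ := by exact_mod_cast (by omega : 8 ≤ Δ)
  have hx1 : (1 : ℝ) ≤ Δ := by linarith
  have hx0 : (0 : ℝ) < Δ := by linarith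
  have htΔ : (t : ℝ) ≤ Δ := by exact_mod_cast (by omega : t ≤ Δ)
  have hk1 := hN1 Δ (by omega)
  have hk2 := hN2 Δ (by omega)
  have hΔ3 : (c + a) * C / a + 1 ≤ ε / 2 * Δ := by
    have : 2 * ((c + a) * C / a + 1) / ε ≤ (Δ : ℝ) :=
      le_trans hN3 (by exact_mod_cast (by omega : N3 ≤ Δ))
    rw [div_le_iff₀ hε] at this
    linarith
  have hlog : 0 ≤ Real.log Δ := Real.log_nonneg hx1
  obtain ⟨k, hk⟩ : ∃ k : ℕ, k = ⌈K * Real.log Δ⌉₊ := ⟨_, rfl⟩
  have hkl : K * Real.log Δ ≤ k := by rw [hk]; exact Nat.le_ceil _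
  have hku : (k : ℝ) ≤ K * Real.log Δ + 1 := by
    rw [hk]
    exact (Nat.ceil_lt_add_one (mul_nonneg hK0 hlog)).le
  have hkκ : (k : ℝ) ≤ κ * Δ / 2 := by linarith
  have hkC : (c + a) * k * C ≤ a * Δ := by
    have h1 : (k : ℝ) ≤ a / ((c + a) * C + 1) * Δ := by linarith
    have h2 : (k : ℝ) * ((c + a) * C + 1) ≤ a * Δ := by
      have h3 := mul_le_mul_of_nonneg_right h1 (by positivity : (0 : ℝ) ≤ (c + a) * C + 1)
      have h4 : a / ((c + a) * C + 1) * Δ * ((c + a) * C + 1) = a * Δ := by field_simp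
      linarith
    have h5 : (0 : ℝ) ≤ k := Nat.cast_nonneg _
    nlinarith
  have hlll : 4 * (β ^ k / (1 / (Δ : ℝ) ^ 3)) * ((Δ : ℝ) ^ C + 1) ≤ 1 := by
    apply Transfer.lll_num hx8 hβ0.le
    have h1 : β = Real.exp (-ℓ) := by rw [hℓ, neg_neg, Real.exp_log hβ0]
    have h2 : (Δ : ℝ) ^ (C + 4) = Real.exp (((C + 4 : ℕ) : ℝ) * Real.log Δ) := by
      rw [Real.exp_nat_mul, Real.exp_log hx0]
    rw [h1, ← Real.exp_nat_mul, h2, ← Real.exp_add]
    apply Real.exp_le_one_iff.2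
    have h3 : ℓ * (K * Real.log Δ) ≤ ℓ * k := mul_le_mul_of_nonneg_left hkl hℓ0.le
    have h4 : ℓ * (K * Real.log Δ) = (C + 4) * Real.log Δ := by
      rw [hK]
      field_simp
    push_cast
    linarith
  -- the iteration
  have iter : ∀ i, i ≤ t → ∃ U : Finset E, U ⊆ E₀ ∧
      Good S Δ (γ ^ i * Δ) (i * κ * Δ) (i * (1 / (Δ : ℝ) ^ 3)) U ∧
      ∃ (n : ℕ) (col : E → ℕ),
        (n : ℝ) ≤ (c + a) * (Δ : ℝ) ^ 2 * (τ + C / Δ) * ∑ j ∈ range i, γ ^ j ∧
        (∀ e ∈ E₀, e ∉ U → col e < n) ∧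
        (∀ e ∈ E₀, ∀ e' ∈ E₀, e ∉ U → e' ∉ U → e ≠ e' → R e e' → col e ≠ col e') := by
    intro i
    induction i with
    | zero =>
      intro _
      refine ⟨E₀, subset_rfl, ?_, 0, fun _ => 0, by simp, fun e he h => absurd he h,
        fun e he e' _ h => absurd he h⟩
      intro i
      have h0 : ∀ l, ¬ (γ ^ 0 * (Δ : ℝ) / Δ * ((S i l).card : ℝ) + ((0 : ℕ) : ℝ) * κ * Δ <
          ((S i l ∩ E₀).card : ℝ)) := by
        intro l
        rw [not_lt, pow_zero, one_mul, div_self hx0.ne', one_mul, Nat.cast_zero, zero_mul,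
          zero_mul, add_zero]
        exact_mod_cast card_le_card inter_subset_left
      rw [SEC.Iterate.pr_false h0]
      simp
    | succ i ih =>
      intro hi
      obtain ⟨U, hUE, hU, n, col, hn, hc1, hc2⟩ := ih (by omega)
      have hiT : i < t := by omega
      have hγi : 0 < γ ^ i := pow_pos hγ0 i
      have hγi1 : γ ^ i ≤ 1 := pow_le_one₀ hγ0.le hγ1.le
      have hai := htmin i hiT
      have hD0 : 0 < γ ^ i * (Δ : ℝ) := by positivity
      have hiκ : (i : ℝ) * κ ≤ min η a := by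
        rw [← hκt]
        exact mul_le_mul_of_nonneg_right (by exact_mod_cast hiT.le) hκ0.le
      obtain ⟨ι, hι, p, q, ⟨F⟩, hp0, hpC, hq0, hqC, hcard⟩ :=
        hfam U (γ ^ i * Δ) (i * κ * Δ) (i * (1 / (Δ : ℝ) ^ 3))
          (mul_le_mul_of_nonneg_right hai hx0.le)
          (by nlinarith) (by positivity)
          (mul_le_mul_of_nonneg_right (hiκ.trans (min_le_left _ _)) hx0.le) (by positivity)
          (by
            have h1 : (i : ℝ) ≤ Δ := le_trans (by exact_mod_cast hiT.le) htΔ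
            rw [mul_one_div, div_le_div_iff₀ (by positivity) (by positivity), one_mul]
            calc (i : ℝ) * (Δ : ℝ) ^ 2 ≤ Δ * (Δ : ℝ) ^ 2 :=
                  mul_le_mul_of_nonneg_right h1 (by positivity)
              _ = (Δ : ℝ) ^ 3 := by ring) hUE hU
      obtain ⟨g, hg⟩ : ∃ g : ℕ, g = ⌈τ / p⌉₊ := ⟨_, rfl⟩
      have hgl : τ ≤ g * p := by
        rw [← div_le_iff₀ hp0, hg]
        exact Nat.le_ceil _
      have hgu : g * p ≤ τ + C / Δ := by
        have h1 : (g : ℝ) ≤ τ / p + 1 := by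
          rw [hg]
          exact (Nat.ceil_lt_add_one (by positivity)).le
        have h2 : (g : ℝ) * p ≤ (τ / p + 1) * p := mul_le_mul_of_nonneg_right h1 hp0.le
        have h3 : (τ / p + 1) * p = τ + p := by field_simp
        have h4 : p ≤ C / Δ := by
          rw [le_div_iff₀ hx0]
          exact hpC
        linarith
      have hcardp : (Fintype.card (ι × Fin g) : ℝ) = Fintype.card ι * g := by
        rw [Fintype.card_prod, Fintype.card_fin]
        push_cast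
        rfl
      have hθ : Real.exp (-((g : ℝ) * p - Fintype.card (ι × Fin g) * k * q / 2)) ≤ γ := by
        rw [hcardp]
        exact Transfer.theta_le (C := (C : ℝ)) hc ha0 (by linarith) hx0 hD0 hp0 hq0 hqC hcard
          (Nat.cast_nonneg g) (Nat.cast_nonneg k) hkC hL0 hLγ hτ hgl
      have hiκ0 : 0 ≤ (i : ℝ) * κ := by positivity
      obtain ⟨M, hM1, hM2⟩ := Pool.Agent.SG.phase R B U ((g : ℝ) * p) q (Transfer.rep F g) S T hST
        (Δ ^ C) hT hq0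
        (fun i' l => γ ^ i * (Δ : ℝ) / Δ * ((S i' l).card : ℝ) + i * κ * Δ)
        (fun i' l => γ ^ (i + 1) * (Δ : ℝ) / Δ * ((S i' l).card : ℝ) + ((i + 1 : ℕ) : ℝ) * κ * Δ)
        (i * (1 / (Δ : ℝ) ^ 3)) (1 / (Δ : ℝ) ^ 3) β k (fun i' => hU i')
        (by
          intro i' l
          have h1 : (0 : ℝ) ≤ γ ^ (i + 1) * (Δ : ℝ) / Δ * ((S i' l).card : ℝ) := by positivity
          have h2 : κ * Δ ≤ ((i + 1 : ℕ) : ℝ) * κ * Δ := by
            push_cast
            nlinarith [mul_nonneg hiκ0 hx0.le]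
          have h3 : 0 < κ * Δ := by positivity
          linarith)
        (by
          intro i' l
          have h1 := Transfer.beta_ineq (γ := γ) (κ := κ) (Δ := (Δ : ℝ))
            (s := ((S i' l).card : ℝ)) (x := γ ^ i * γ * ((S i' l).card : ℝ)) (k := (k : ℝ))
            (θ := Real.exp (-((g : ℝ) * p - Fintype.card (ι × Fin g) * k * q / 2)))
            (y := i * κ) (γi := γ ^ i) hx0 hκ0
            (by
              have := min_le_right η a
              linarith) (Nat.cast_nonneg _) (by exact_mod_cast hS i' l) hγi.le hγi1 hγ1.le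
            hθ hkκ hiκ0 rfl
          have h2 : γ ^ i * (Δ : ℝ) / Δ = γ ^ i := by field_simp
          have h3 : γ ^ (i + 1) * (Δ : ℝ) / Δ = γ ^ i * γ := by
            rw [pow_succ]
            field_simp
          rw [h2, h3, hβ]
          push_cast
          have h4 : ((i : ℝ) + 1) * κ * Δ = (i * κ + κ) * Δ := by ring
          rw [h4]
          exact h1)
        hβ0.le (by positivity) (by push_cast; exact hlll)
      refine ⟨U.filter (fun e => ∀ j, e ∉ M j), (filter_subset _ _).trans hUE, ?_,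
        n + Fintype.card (ι × Fin g), ?_⟩
      · intro i'
        have h1 := hM2 i'
        have h2 : ((i + 1 : ℕ) : ℝ) * (1 / (Δ : ℝ) ^ 3) =
            i * (1 / (Δ : ℝ) ^ 3) + 1 / (Δ : ℝ) ^ 3 := by
          push_cast
          ring
        rw [h2]
        exact h1
      · obtain ⟨col', h1, h2⟩ := Transfer.step_col R E₀ U n col hc1 hc2 M hM1
        refine ⟨col', ?_, h1, h2⟩
        rw [sum_range_succ, mul_add]
        push_cast
        have h3 : (Fintype.card (ι × Fin g) : ℝ) ≤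
            (c + a) * (Δ : ℝ) ^ 2 * (τ + C / Δ) * γ ^ i := by
          rw [hcardp]
          calc (Fintype.card ι : ℝ) * g ≤ (c + a) * (γ ^ i * Δ) * Δ * p * g :=
                mul_le_mul_of_nonneg_right hcard (Nat.cast_nonneg g)
            _ = (c + a) * (γ ^ i * Δ) * Δ * (g * p) := by ring
            _ ≤ (c + a) * (γ ^ i * Δ) * Δ * (τ + C / Δ) :=
                mul_le_mul_of_nonneg_left hgu (by positivity)
            _ = _ := by ring
        linarith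
  obtain ⟨U, hUE, hU, n, col, hn, hc1, hc2⟩ := iter t le_rfl
  have hδ1 : (t : ℝ) * (1 / (Δ : ℝ) ^ 3) < 1 := by
    rw [mul_one_div, div_lt_one (by positivity)]
    calc (t : ℝ) ≤ Δ := htΔ
      _ = (Δ : ℝ) ^ 1 := (pow_one _).symm
      _ < (Δ : ℝ) ^ 3 := pow_lt_pow_right₀ (by linarith) (by norm_num)
  have hfin := hconf U (γ ^ t * Δ) (t * κ * Δ) (t * (1 / (Δ : ℝ) ^ 3)) hδ1 (by positivity)
    (by positivity) hUE hU
  obtain ⟨Y, hY⟩ : ∃ Y : ℝ, Y = γ ^ t * Δ + t * κ * Δ := ⟨_, rfl⟩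
  have hY0 : 0 ≤ Y := by rw [hY]; positivity
  have hY2 : Y ≤ 2 * a * Δ := by
    rw [hY, hκt]
    have h1 : γ ^ t * (Δ : ℝ) ≤ a * Δ := mul_le_mul_of_nonneg_right ht.le hx0.le
    have h2 : min η a * (Δ : ℝ) ≤ a * Δ := mul_le_mul_of_nonneg_right (min_le_right _ _) hx0.le
    linarith
  obtain ⟨gc, hg1, hg2⟩ := SEC.Iterate.greedy R hR ⌊2 * Δ * Y⌋₊ U (by
    intro e he
    apply Nat.le_floor
    rw [hY]
    exact hfin e he)
  refine ⟨fun e => if e ∈ U then n + gc e else col e, ?_, ?_⟩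
  · intro e he
    have hs : ∑ j ∈ range t, γ ^ j ≤ 1 / a := by
      have := SEC.Numbers.geom_le hγ0.le hγ1 t
      rw [hγ] at this ⊢
      rwa [sub_sub_cancel] at this
    have hnum := Transfer.final_num hc ha0 ha1 haε (Nat.cast_nonneg C) hx1 hΔ3 hs hL0 hLa hτ hY2
    refine le_trans ?_ hnum
    dsimp only
    by_cases h : e ∈ U
    · rw [if_pos h]
      have h1 := hg1 e
      have h2 : (gc e : ℝ) ≤ 2 * Δ * Y := by
        have h3 : gc e ≤ ⌊2 * Δ * Y⌋₊ := Nat.lt_succ_iff.1 h1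
        exact le_trans (by exact_mod_cast h3) (Nat.floor_le (by positivity))
      push_cast
      linarith
    · rw [if_neg h]
      have h1 := hc1 e he h
      have h2 : (col e : ℝ) ≤ n := by exact_mod_cast h1.le
      have h3 : 0 ≤ 2 * (Δ : ℝ) * Y := by positivity
      linarith
  · intro e he e' he' hee hr
    by_cases h : e ∈ U
    · by_cases h' : e' ∈ U
      · simp only [if_pos h, if_pos h']
        have := hg2 e h e' h' hee hr
        omega
      · simp only [if_pos h, if_neg h']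
        have := hc1 e' he' h'
        omega
    · by_cases h' : e' ∈ U
      · simp only [if_neg h, if_pos h']
        have := hc1 e he h
        omega
      · simp only [if_neg h, if_neg h']
        exact hc2 e he e' he' h h' hee hr

end Pool.Agent.SG
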